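import Pool.Agent.TH116.Val.Defs

/-! Elementary properties and the moves which are compositions of homomorphisms. -/

namespace Pool.Agent.TH116.Val

open Finset Pool.Agent.TH176.Nag Pool.Agent.TH181.Nag

section VGe
variable {K : Type*} [CommRing K] {τ B B' : ℝ} {F G : Loc K}

theorem VGe.mono (h : VGe τ B F) (hB : B' ≤ B) : VGe τ B' F :=
  fun k j hkj => h k j (lt_of_lt_of_le hkj hB)

theorem VGe.zero : VGe τ B (0 : Loc K) := fun _ _ _ => map_zero _

theorem VGe.add (hF : VGe τ B F) (hG : VGe τ B G) : VGe τ B (F + G) := fun k j h => by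
  rw [map_add, hF k j h, hG k j h, add_zero]

theorem VGe.neg (hF : VGe τ B F) : VGe τ B (-F) := fun k j h => by
  rw [map_neg, hF k j h, neg_zero]

theorem VGe.sub (hF : VGe τ B F) (hG : VGe τ B G) : VGe τ B (F - G) := fun k j h => by
  rw [map_sub, hF k j h, hG k j h, sub_zero]

theorem VGe.smul (a : K) (hF : VGe τ B F) : VGe τ B (a • F) := fun k j h => by
  rw [map_smul, hF k j h, smul_zero]

theorem VGe.sum {κ : Type*} {s : Finset κ} {F : κ → Loc K} (h : ∀ i ∈ s, VGe τ B (F i)) :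
    VGe τ B (∑ i ∈ s, F i) := fun k j hkj => by
  rw [map_sum]
  exact sum_eq_zero fun i hi => h i hi k j hkj

theorem co_mul (k j : ℕ) (F G : Loc K) : co k j (F * G) =
    ∑ p ∈ antidiagonal j, ∑ q ∈ antidiagonal k, co q.1 p.1 F * co q.2 p.2 G := by
  rw [co_apply, PowerSeries.coeff_mul, map_sum]
  refine sum_congr rfl fun p _ => ?_
  rw [PowerSeries.coeff_mul]
  rfl

theorem VGe.mul (hF : VGe τ B F) (hG : VGe τ B' G) : VGe τ (B + B') (F * G) := by
  intro k j hkj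
  rw [co_mul]
  refine sum_eq_zero fun p hp => sum_eq_zero fun q hq => ?_
  rw [HasAntidiagonal.mem_antidiagonal] at hp hq
  have hp' : (p.1 : ℝ) + p.2 = j := by exact_mod_cast hp
  have hq' : (q.1 : ℝ) + q.2 = k := by exact_mod_cast hq
  rcases lt_or_ge ((q.1 : ℝ) + τ * p.1) B with h | h
  · rw [hF _ _ h, zero_mul]
  · rw [hG q.2 p.2 (by rw [← hp', ← hq'] at hkj; linarith), mul_zero]

theorem VGe.of_nonneg (hτ : 0 ≤ τ) (hB : B ≤ 0) (F : Loc K) : VGe τ B F := by
  intro k j h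
  exfalso
  have h1 : (0 : ℝ) ≤ k := Nat.cast_nonneg k
  have h2 : (0 : ℝ) ≤ τ * j := mul_nonneg hτ (Nat.cast_nonneg j)
  linarith

theorem VGe.mul_right (hτ : 0 ≤ τ) (hF : VGe τ B F) (G : Loc K) : VGe τ B (F * G) := by
  have := hF.mul (VGe.of_nonneg hτ le_rfl G)
  rwa [add_zero] at this

theorem VGe.mul_left (hτ : 0 ≤ τ) (hF : VGe τ B F) (G : Loc K) : VGe τ B (G * F) := by
  rw [mul_comm]
  exact hF.mul_right hτ G

theorem VGe.pow (hτ : 0 ≤ τ) (hF : VGe τ B F) (k : ℕ) : VGe τ (k * B) (F ^ k) := by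
  induction k with
  | zero =>
    rw [pow_zero]
    exact VGe.of_nonneg hτ (by simp) _
  | succ k ih =>
    rw [pow_succ]
    have := ih.mul hF
    refine this.mono (le_of_eq ?_)
    push_cast
    ring

theorem VGe.of_mul_unit (hτ : 0 ≤ τ) {u : (Loc K)ˣ} (h : VGe τ B (F * (u : Loc K))) : VGe τ B F := by
  have := h.mul_right hτ ((u⁻¹ : (Loc K)ˣ) : Loc K)
  rwa [Units.mul_inv_cancel_right] at this

end VGe

section evl
variable {K A : Type*} [Field K] [CommRing A] [Algebra K A]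

theorem ev_zero (X Y : Aˣ) : ev X Y (0 : (ℤ × ℤ) →₀ K) = 0 := by
  unfold ev
  rw [Finsupp.sum_zero_index]

theorem ev_add (X Y : Aˣ) (f g : (ℤ × ℤ) →₀ K) : ev X Y (f + g) = ev X Y f + ev X Y g := by
  unfold ev
  rw [Finsupp.sum_add_index' (by intro m; exact zero_smul K _) (by intro m a b; exact add_smul a b _)]

theorem ev_single (X Y : Aˣ) (m : ℤ × ℤ) (a : K) :
    ev X Y (Finsupp.single m a) = a • ((X ^ m.1 * Y ^ m.2 : Aˣ) : A) := by
  unfold ev
  rw [Finsupp.sum_single_index (by exact zero_smul K _)]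

theorem ev_eq_sum {X Y : Aˣ} {f : (ℤ × ℤ) →₀ K} {s : Finset (ℤ × ℤ)} (hs : f.support ⊆ s) :
    ev X Y f = ∑ m ∈ s, f m • ((X ^ m.1 * Y ^ m.2 : Aˣ) : A) := by
  unfold ev
  exact Finsupp.sum_of_support_subset f hs _ (fun m _ => zero_smul K _)

theorem ev_smul (X Y : Aˣ) (a : K) (f : (ℤ × ℤ) →₀ K) : ev X Y (a • f) = a • ev X Y f := by
  rw [ev_eq_sum (Finsupp.support_smul : (a • f).support ⊆ f.support), ev_eq_sum (subset_refl f.support),
    smul_sum]
  refine sum_congr rfl fun m _ => ?_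
  rw [Finsupp.smul_apply, smul_assoc]

theorem ev_sum (X Y : Aˣ) {κ : Type*} (s : Finset κ) (f : κ → (ℤ × ℤ) →₀ K) :
    ev X Y (∑ i ∈ s, f i) = ∑ i ∈ s, ev X Y (f i) := by
  classical
  induction s using Finset.induction_on with
  | empty => simp [ev_zero]
  | insert a s ha ih => rw [sum_insert ha, sum_insert ha, ev_add, ih]

/-- monomial maps -/
theorem ev_mapDomain (X Y : Aˣ) (a b c d u v : ℤ) (f : (ℤ × ℤ) →₀ K) :
    ev X Y (f.mapDomain fun m => (a * m.1 + b * m.2 + u, c * m.1 + d * m.2 + v)) =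
      ev (X ^ a * Y ^ c) (X ^ b * Y ^ d) f * ((X ^ u * Y ^ v : Aˣ) : A) := by
  unfold ev
  rw [Finsupp.sum_mapDomain_index (by intro m; exact zero_smul K _) (by intro m a b; exact add_smul a b _)]
  unfold Finsupp.sum
  rw [sum_mul]
  refine sum_congr rfl fun m _ => ?_
  rw [smul_mul_assoc, ← Units.val_mul]
  refine congrArg (fun z : Aˣ => f m • (z : A)) ?_
  simp only [mul_zpow, ← zpow_mul, zpow_add]
  generalize X ^ (a * m.1) = p
  generalize X ^ (b * m.2) = q
  generalize Y ^ (c * m.1) = r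
  generalize Y ^ (d * m.2) = s
  generalize X ^ u = t
  generalize Y ^ v = w
  calc p * q * t * (r * s * w) = p * q * (r * s) * (t * w) := mul_mul_mul_comm _ _ _ _
    _ = p * r * (q * s) * (t * w) := by rw [mul_mul_mul_comm p q r s]

end evl

section moves
variable {ι : Type} {τ B : ι → ℝ} {S S' : Set (ℤ × ℤ)}

theorem EmpV.mono (h : EmpV τ B S') (hS : S ⊆ S') : EmpV τ B S := by
  obtain ⟨K, _, _, X, Y, hf⟩ := h
  exact ⟨K, _, inferInstance, X, Y, fun f h1 h2 => hf f (h1.trans hS) h2⟩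

theorem EmpV.mono_B {B' : ι → ℝ} (h : EmpV τ B S) (hB : ∀ i, B i ≤ B' i) : EmpV τ B' S := by
  obtain ⟨K, _, _, X, Y, hf⟩ := h
  exact ⟨K, _, inferInstance, X, Y, fun f h1 h2 => hf f h1 fun i => (h2 i).mono (hB i)⟩

theorem EmpV.comap (hτ : ∀ i, 0 ≤ τ i) (h : EmpV τ B S') (a b c d u v : ℤ) (hdet : a * d - b * c ≠ 0)
    (hS : ∀ m ∈ S, (a * m.1 + b * m.2 + u, c * m.1 + d * m.2 + v) ∈ S') : EmpV τ B S := by
  classical
  obtain ⟨K, _, _, X, Y, hf⟩ := h
  refine ⟨K, _, inferInstance, fun i => X i ^ a * Y i ^ c, fun i => X i ^ b * Y i ^ d,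
    fun f h1 h2 => ?_⟩
  have hinj : Function.Injective (fun m : ℤ × ℤ => (a * m.1 + b * m.2 + u, c * m.1 + d * m.2 + v)) := by
    rintro ⟨m1, m2⟩ ⟨n1, n2⟩ h
    simp only [Prod.mk.injEq] at h
    obtain ⟨e1, e2⟩ := h
    have e3 : (a * d - b * c) * (m1 - n1) = 0 := by linear_combination d * e1 - b * e2
    have e4 : (a * d - b * c) * (m2 - n2) = 0 := by linear_combination a * e2 - c * e1
    have e5 := (mul_eq_zero.1 e3).resolve_left hdet
    have e6 := (mul_eq_zero.1 e4).resolve_left hdet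
    ext
    · simp only; omega
    · simp only; omega
  have h3 := hf (f.mapDomain fun m => (a * m.1 + b * m.2 + u, c * m.1 + d * m.2 + v)) (by
    intro m hm
    have := Finsupp.mapDomain_support (Finset.mem_coe.1 hm)
    rw [Finset.mem_image] at this
    obtain ⟨m', hm', rfl⟩ := this
    exact hS m' (h1 hm')) (fun i => by
      rw [ev_mapDomain]
      exact (h2 i).mul_right (hτ i) _)
  exact Finsupp.mapDomain_injective hinj (h3.trans Finsupp.mapDomain_zero.symm)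

theorem EmpV.pow (hτ : ∀ i, 0 ≤ τ i) (k : ℕ) (hk : 1 ≤ k) (hS : kS S k ⊆ S')
    (h : EmpV τ (fun i => k * B i) S') : EmpV τ B S := by
  obtain ⟨K, _, _, X, Y, hf⟩ := h
  refine ⟨K, _, inferInstance, X, Y, fun f h1 h2 => ?_⟩
  obtain ⟨F, rfl⟩ : ∃ F : Lau K, F.coeff = f := ⟨AddMonoidAlgebra.ofCoeff f, rfl⟩
  have h3 := hf (F ^ k).coeff ((supp_pow h1 k).trans hS) (fun i => by
    rw [← evH_eq, map_pow, evH_eq]
    exact (h2 i).pow (hτ i) k)
  have h4 : F ^ k = 0 := by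
    ext m
    rw [h3]; simp
  have h5 : F = 0 := pow_eq_zero_iff (by omega) |>.1 h4
  rw [h5]; rfl

end moves

end Pool.Agent.TH116.Val
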