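import Pool.Agent.TH116.Val.Flat
import Pool.Agent.TH176.Nag.Stair3

/-! The degeneration from the weighted plane to the charts of the staircase, for germs. -/

namespace Pool.Agent.TH116.Val

open Finset Pool.Agent.TH176.Nag Pool.Agent.TH181.Nag

/-- the constant coefficient -/
noncomputable def c0 (L : Type*) [CommRing L] : Loc L →+* L :=
  (PowerSeries.constantCoeff (R := L)).comp (PowerSeries.constantCoeff (R := PowerSeries L))

theorem c0_eq {L : Type*} [CommRing L] (F : Loc L) : c0 L F = co 0 0 F := by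
  rw [co00]; rfl

theorem c0_unit_ne {L : Type*} [Field L] (X : (Loc L)ˣ) : c0 L (X : Loc L) ≠ 0 := by
  rw [c0_eq]; exact isUnit_loc.1 X.isUnit

theorem c0_mono {L : Type*} [Field L] (X Y : (Loc L)ˣ) (m : ℤ × ℤ) :
    c0 L ((X ^ m.1 * Y ^ m.2 : (Loc L)ˣ) : Loc L) = c0 L (X : Loc L) ^ m.1 * c0 L (Y : Loc L) ^ m.2 := by
  have h : ∀ Z : (Loc L)ˣ, c0 L (Z : Loc L) = ((Units.map (c0 L : Loc L →* L) Z : Lˣ) : L) := fun _ => rfl
  rw [h, h, h, map_mul, map_zpow, map_zpow]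
  simp

section
variable {L : Type} [Field L]

theorem c0_evH_mon (X Y : (Loc L)ˣ) (m : ℤ × ℤ) :
    (c0 L).comp (evH (K := L) X Y : Lau L →+* Loc L) (mon L m) =
      c0 L (X : Loc L) ^ m.1 * c0 L (Y : Loc L) ^ m.2 := by
  rw [← c0_mono, RingHom.comp_apply]
  congr 1
  exact evH_mon X Y m

theorem c0_evH_zL (X Y : (Loc L)ˣ) (N : ℕ) :
    (((c0 L).comp (evH (K := L) X Y : Lau L →+* Loc L) (zL L N).1,
      (c0 L).comp (evH (K := L) X Y : Lau L →+* Loc L) (zL L N).2.1,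
      (c0 L).comp (evH (K := L) X Y : Lau L →+* Loc L) (zL L N).2.2.1,
      (c0 L).comp (evH (K := L) X Y : Lau L →+* Loc L) (zL L N).2.2.2) : L × L × L × L) =
      zK N (c0 L (X : Loc L)) (c0 L (Y : Loc L)) := by
  unfold zL zK
  simp only [map_mul, map_add, map_one, c0_evH_mon]
  simp only [zpow_zero, zpow_neg_one, one_mul, zpow_natCast, mul_one, zpow_one]
  refine Prod.ext ?_ (Prod.ext rfl (Prod.ext rfl ?_))
  · simp only; rw [mul_comm, div_eq_mul_inv]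
  · simp only; rw [mul_comm, div_eq_mul_inv]

/-- the pullback evaluated -/
theorem evH_pb (x y X Y Z : (Loc L)ˣ) {N t e : ℕ}
    (hZ : evH (K := L) x y (s0 N t (zL L N)) = (Z : Loc L))
    (hX : evH (K := L) x y (s1 N t (zL L N)) = ((X * Z : (Loc L)ˣ) : Loc L))
    (hY : evH (K := L) x y (s2 N t (zL L N)) = ((Y * Z ^ (N - 2) : (Loc L)ˣ) : Loc L))
    {f : (ℤ × ℤ) →₀ L} (hsup : ∀ m ∈ f.support, 0 ≤ m.1 ∧ 0 ≤ m.2 ∧
      m.1 + ((N - 2 : ℕ) : ℤ) * m.2 ≤ (((N - 2) * e : ℕ) : ℤ)) :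
    evH (K := L) x y (pb N t e f) = ev X Y f * ((Z ^ ((N - 2) * e) : (Loc L)ˣ) : Loc L) := by
  unfold pb ev Finsupp.sum
  rw [map_sum, sum_mul]
  refine sum_congr rfl fun m hm => ?_
  obtain ⟨h1, h2, h3⟩ := hsup m hm
  obtain ⟨a, ha⟩ := Int.eq_ofNat_of_zero_le h1
  obtain ⟨b, hb⟩ := Int.eq_ofNat_of_zero_le h2
  rw [ha, hb] at h3
  have h4 : a + (N - 2) * b ≤ (N - 2) * e := by exact_mod_cast h3
  rw [map_smul, map_mul, map_mul, map_pow, map_pow, map_pow, hZ, hX, hY, smul_mul_assoc, ha, hb,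
    zpow_natCast, zpow_natCast, Int.toNat_natCast, Int.toNat_natCast]
  refine congrArg (fun z => f m • z) ?_
  simp only [← Units.val_pow_eq_pow_val, ← Units.val_mul]
  refine congrArg Units.val ?_
  have h5 : (N - 2) * e = ((N - 2) * e - a - (N - 2) * b) + a + (N - 2) * b := by omega
  conv_rhs => rw [h5, pow_add, pow_add]
  rw [mul_pow, mul_pow, ← pow_mul]
  refine Units.ext ?_
  simp only [Units.val_mul]
  ring

/-- `tv` as a unit -/
noncomputable def tvu (K : Type) [Field K] : (Loc (LaurentSeries K))ˣ :=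
  Units.map (algebraMap (LaurentSeries K) (Loc (LaurentSeries K)) : LaurentSeries K →* _)
    (Units.mk0 (tv K) (by simp [tv]))

theorem ev_scl {K : Type} [Field K] (X Y : (Loc (LaurentSeries K))ˣ)
    (f : (ℤ × ℤ) →₀ LaurentSeries K) : ev X Y (scl f) = ev (tvu K * X) (tvu K * Y) f := by
  unfold ev Finsupp.sum
  rw [scl_support]
  refine sum_congr rfl fun m _ => ?_
  beta_reduce
  rw [scl_apply, mul_smul]
  refine congrArg (fun z => f m • z) ?_
  rw [mul_zpow, mul_zpow, mul_mul_mul_comm, ← zpow_add,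
    Units.val_mul (tvu K ^ (m.1 + m.2))]
  have h : ((tvu K ^ (m.1 + m.2) : (Loc (LaurentSeries K))ˣ) : Loc (LaurentSeries K)) =
      algebraMap (LaurentSeries K) (Loc (LaurentSeries K)) (tv K ^ (m.1 + m.2)) := by
    unfold tvu
    rw [← map_zpow, Units.coe_map, Units.val_zpow_eq_zpow_val, Units.val_mk0]
    rfl
  rw [h, Algebra.smul_def]

end

theorem EmpV.chart {ι : Type} {τ B : ι → ℝ} (hτ : ∀ i, 0 ≤ τ i) {N : ℕ} (hN : 3 ≤ N) (t e : ℕ)
    (h : EmpV τ B (S3 N (t + 2) e)) : EmpV τ B (WP N e) := by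
  obtain ⟨K, _, _, X0, Y0, hf⟩ := h
  let x : ι → (Loc (LaurentSeries K))ˣ := fun i => tvu K * mapU (CC K) (X0 i)
  let y : ι → (Loc (LaurentSeries K))ˣ := fun i => tvu K * mapU (CC K) (Y0 i)
  have hc : ∀ Z : (Loc K)ˣ, c0 (LaurentSeries K) ((tvu K * mapU (CC K) Z : (Loc (LaurentSeries K))ˣ) :
      Loc (LaurentSeries K)) = tv K * cst (c0 K (Z : Loc K)) := by
    intro Z
    rw [Units.val_mul, map_mul]
    have g1 : c0 (LaurentSeries K) ((tvu K : (Loc (LaurentSeries K))ˣ) : Loc (LaurentSeries K)) = tv K := by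
      rw [c0_eq]
      show co 0 0 (algebraMap (LaurentSeries K) (Loc (LaurentSeries K)) (tv K)) = _
      rw [Algebra.algebraMap_eq_smul_one, map_smul, co00]
      simp
    have g2 : c0 (LaurentSeries K) (mapU (CC K) Z : Loc (LaurentSeries K)) = cst (c0 K (Z : Loc K)) := by
      rw [c0_eq, c0_eq]
      exact co_mapL (CC K) 0 0 (Z : Loc K)
    rw [g1, g2]

  have hs : ∀ i, IsUnit (evH (K := LaurentSeries K) (x i) (y i) (s0 N (t + 2) (zL _ N))) ∧
      IsUnit (evH (K := LaurentSeries K) (x i) (y i) (s1 N (t + 2) (zL _ N))) ∧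
      IsUnit (evH (K := LaurentSeries K) (x i) (y i) (s2 N (t + 2) (zL _ N))) := by
    intro i
    have ez := c0_evH_zL (x i) (y i) N
    have h1 := s012_ne hN (c0_unit_ne (X0 i)) (c0_unit_ne (Y0 i)) t
    rw [← hc, ← hc] at h1
    have h2 : zK N (c0 (LaurentSeries K) ((tvu K * mapU (CC K) (X0 i) : (Loc (LaurentSeries K))ˣ) :
      Loc (LaurentSeries K))) (c0 (LaurentSeries K) ((tvu K * mapU (CC K) (Y0 i) : (Loc (LaurentSeries K))ˣ) :
      Loc (LaurentSeries K))) = zK N (c0 (LaurentSeries K) (x i : Loc (LaurentSeries K)))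
        (c0 (LaurentSeries K) (y i : Loc (LaurentSeries K))) := rfl
    rw [h2, ← ez, map_s0, map_s1, map_s2] at h1
    obtain ⟨g0, g1, g2⟩ := h1
    refine ⟨?_, ?_, ?_⟩
    · rw [isUnit_loc, ← c0_eq]; exact g0
    · rw [isUnit_loc, ← c0_eq]; exact g1
    · rw [isUnit_loc, ← c0_eq]; exact g2
  choose Z hZ using fun i => (hs i).1
  choose X1 hX1 using fun i => (hs i).2.1
  choose Y1 hY1 using fun i => (hs i).2.2
  refine ⟨LaurentSeries K, inferInstance, inferInstance, fun i => X1 i * (Z i)⁻¹,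
    fun i => Y1 i * (Z i ^ (N - 2))⁻¹, ?_⟩
  intro f hfS hfL
  by_contra hf0
  -- the support in natural form
  have hsup : ∀ m ∈ f.support, 0 ≤ m.1 ∧ 0 ≤ m.2 ∧ m.1 + ((N - 2 : ℕ) : ℤ) * m.2 ≤ (((N - 2) * e : ℕ) : ℤ) := by
    intro m hm
    obtain ⟨h1, h2, h3⟩ := hfS hm
    refine ⟨h1, h2, ?_⟩
    obtain ⟨M, rfl⟩ : ∃ M, N = M + 2 := ⟨N - 2, by omega⟩
    simp only [Nat.add_sub_cancel]
    push_cast at h3 ⊢
    linarith
  have hg0 : pb N (t + 2) e f ≠ 0 := by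
    intro h
    exact hf0 (Pool.Agent.TH543.NagJ.comp_inj hN (t + 2) hsup h)
  have hLM : ∀ i, VGe (τ i) (B i) (ev (x i) (y i) (pb N (t + 2) e f).coeff) := by
    intro i
    rw [← evH_eq, evH_pb (x i) (y i) (X1 i * (Z i)⁻¹) (Y1 i * (Z i ^ (N - 2))⁻¹) (Z i)
      (hZ i).symm (by rw [inv_mul_cancel_right]; exact (hX1 i).symm)
      (by rw [inv_mul_cancel_right]; exact (hY1 i).symm) hsup]
    exact (hfL i).mul_right (hτ i) _
  set g := pb N (t + 2) e f with hg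
  have hDg := pb_Dg hN (t + 2) e hfS
  rw [← hg] at hDg
  have hadj := pb_adjoin N (t + 2) e f
  rw [← hg] at hadj
  have hgc : g.coeff ≠ 0 := by
    intro h
    apply hg0
    ext m
    rw [h]; rfl
  have hsc : scl g.coeff ≠ 0 := by
    intro h
    apply hgc
    rw [← Finsupp.support_eq_empty, ← scl_support, h, Finsupp.support_zero]
  obtain ⟨n, hn1, hn2, hn3⟩ := exists_lead hsc
  apply hn1
  apply hf
  · intro m hm
    have hm' : (scl g.coeff m).coeff n ≠ 0 := by simpa using hm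
    obtain ⟨h1, h2⟩ := hn3 m hm'
    have h3 : m ∈ g.coeff.support := by
      rw [← scl_support]; exact Finsupp.mem_support_iff.2 h1
    have h3' := Finsupp.mem_support_iff.1 h3
    obtain ⟨h4, l, hl⟩ := hDg m h3
    have hN' : (3 : ℤ) ≤ N := by exact_mod_cast hN
    have hl0 : 0 ≤ l := by
      have : (0 : ℤ) ≤ N * l := by rw [← hl]; linarith
      nlinarith
    have hmin : ∀ m' ∈ g.coeff.support, (g.coeff m).order + (m.1 + m.2) ≤
        (g.coeff m').order + (m'.1 + m'.2) := by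
      intro m' hm''
      rw [← scl_order h3', ← scl_order (Finsupp.mem_support_iff.1 hm''), h2]
      by_contra hlt
      have h5 := hn2 m' _ (not_le.1 hlt)
      have h6 : scl g.coeff m' ≠ 0 := by
        rw [← Finsupp.mem_support_iff, scl_support]; exact hm''
      exact h6 (HahnSeries.coeff_order_eq_zero.1 h5)
    have hg1 := gs_pos hN' (t + 2)
    have hg2 := gs_pos hN' (t + 2 + 1)
    refine ⟨l, hl0, by linarith, ?_, ?_⟩
    · rcases le_or_gt 0 m.1 with h7 | h7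
      · positivity
      · obtain ⟨j, hj1, hj2⟩ := Pool.Agent.TH494.NagG.lowest_left (by omega) g hadj m h3' h7 hmin
        obtain ⟨h8, -⟩ := hDg (m.1, j) (Finsupp.mem_support_iff.2 hj2)
        simp only at h8
        have h9 : (m.2 - N * m.1) * gs N (t + 2 + 1) ≤ j * gs N (t + 2 + 1) :=
          mul_le_mul_of_nonneg_right hj1 hg2.le
        have h10 : 0 ≤ (N : ℤ) * (m.1 * gs N (t + 2 + 1) + l) := by nlinarith
        exact nonneg_of_mul_nonneg_right h10 (by omega)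
    · rcases le_or_gt 0 m.2 with h7 | h7
      · positivity
      · obtain ⟨j, hj1, hj2⟩ := Pool.Agent.TH494.NagG.lowest_right (by omega) g hadj m h3' h7 hmin
        obtain ⟨h8, -⟩ := hDg (j, m.2) (Finsupp.mem_support_iff.2 hj2)
        simp only at h8
        have h9 : (m.1 - N * m.2) * gs N (t + 2) ≤ j * gs N (t + 2) :=
          mul_le_mul_of_nonneg_right hj1 hg1.le
        have h10 : 0 ≤ (N : ℤ) * (m.2 * gs N (t + 2) + l) := by nlinarith
        exact nonneg_of_mul_nonneg_right h10 (by omega)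
  · intro i
    apply VGe_coeff
    rw [ev_scl]
    exact hLM i

theorem EmpV.Q3 {ι : Type} {τ B : ι → ℝ} (hτ : ∀ i, 0 ≤ τ i) {N : ℕ} (hN : 3 ≤ N) (t e : ℕ)
    (h : EmpV τ B (Pool.Agent.TH176.Nag.Q3 N (t + 2) e)) : EmpV τ B (WP N e) := by
  apply EmpV.chart hτ hN t e
  have hN' : (3 : ℤ) ≤ N := by exact_mod_cast hN
  obtain ⟨c, hc⟩ := (gs_mod (N := (N : ℤ)) (t + 1)).1
  obtain ⟨a, ha⟩ := (gs_mod (N := (N : ℤ)) (t + 2)).1
  obtain ⟨b, hb⟩ := (gs_mod (N := (N : ℤ)) (t + 2)).2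
  have hrec1 : gs N (t + 1 + 2) = N * gs N (t + 1 + 1) - gs N (t + 1) := gs_two (t + 1)
  have hrec2 : gs N (t + 2 + 2) = N * gs N (t + 2 + 1) - gs N (t + 2) := gs_two (t + 2)
  have hmk := gs_markov (N := (N : ℤ)) (t + 2)
  set g0 := gs N (t + 1) with hg0
  set g1 := gs N (t + 2) with hg1
  set g2 := gs N (t + 3) with hg2
  set g3 := gs N (t + 4) with hg3
  have hrec1' : g2 = N * g1 - g0 := hrec1
  have hrec2' : g3 = N * g2 - g1 := hrec2
  have hmk' : g1 ^ 2 + g2 ^ 2 + (N - 2) = N * g1 * g2 := hmk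
  have hb' : g2 - 1 = (N - 2) * b := hb
  -- (g2 - g0)/M and (g3 - g1)/M
  obtain ⟨f1, hf1⟩ : ∃ f1 : ℤ, g2 - g0 = (N - 2) * f1 := ⟨b - c, by linear_combination hb' - hc⟩
  obtain ⟨f2, hf2⟩ : ∃ f2 : ℤ, g3 - g1 = (N - 2) * f2 := by
    refine ⟨(N : ℤ) * b + 1 - 2 * a, ?_⟩
    rw [hrec2']
    linear_combination (N : ℤ) * hb' - 2 * ha
  have hM : (0 : ℤ) < N - 2 := by omega
  have hp1 : g0 * g2 = g1 ^ 2 + (N - 2) := by rw [hrec1']; rw [hrec1'] at hmk'; linear_combination -hmk'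
  have hp2 : g1 * g3 = g2 ^ 2 + (N - 2) := by rw [hrec2']; linear_combination -hmk'
  have hdet : g0 * f2 - f1 * g1 = N := by
    have : (N - 2 : ℤ) * (g0 * f2 - f1 * g1) = (N - 2) * N := by
      linear_combination -g0 * hf2 + g1 * hf1 + g0 * hrec2' + N * hp1 - g1 * hrec1'
    exact mul_left_cancel₀ hM.ne' this
  refine (h.sub hτ g0 f1 g1 f2 (-(e : ℤ) * g1) (-(e : ℤ) * g2) (by linarith)).mono ?_
  rintro m ⟨l, hl0, hl1, hl2, hl3⟩
  have hl1' : (N : ℤ) * l + m.1 * g1 + m.2 * g2 = (N - 2) * e := hl1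
  have hl2' : 0 ≤ m.1 * g2 + l := hl2
  have hl3' : 0 ≤ m.2 * g1 + l := hl3
  have hα : ((N : ℤ) - 2) * (e - l - m.1 * a - m.2 * b + m.1 * b + m.2 * a) = m.1 * g2 + 2 * l + m.2 * g1 := by
    linear_combination -hl1' + m.1 * ha + m.2 * hb' - m.1 * hb' - m.2 * ha
  refine ⟨(e - l - m.1 * a - m.2 * b + m.1 * b + m.2 * a, m.2 * g1 + l), ⟨hl3', ?_, ?_⟩, ?_⟩
  · show m.2 * g1 + l ≤ ((N : ℤ) - 2) * (e - l - m.1 * a - m.2 * b + m.1 * b + m.2 * a)
    rw [hα]; linarith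
  · show ((N : ℤ) - 2) * (e - l - m.1 * a - m.2 * b + m.1 * b + m.2 * a) * g1 ^ 2 +
      (m.2 * g1 + l) * (g2 ^ 2 - g1 ^ 2) ≤ (N - 2) * e * (g1 * g2)
    rw [hα]
    have e1 : (m.1 * g2 + 2 * l + m.2 * g1) * g1 ^ 2 + (m.2 * g1 + l) * (g2 ^ 2 - g1 ^ 2) =
        (N - 2) * e * (g1 * g2) - (N - 2) * l := by
      linear_combination g1 * g2 * hl1' + l * hmk'
    rw [e1]
    nlinarith
  · ext
    · simp only
      apply mul_left_cancel₀ hM.ne'
      linear_combination (-g0) * hα + (m.2 * g1 + l) * hf1 - m.1 * hp1 - l * hrec1' - g1 * hl1'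
    · simp only
      apply mul_left_cancel₀ hM.ne'
      linear_combination (-g1) * hα + (m.2 * g1 + l) * hf2 - m.2 * hp2 - l * hrec2' - g2 * hl1'

/-- the system of emptiness predicates for germs with weights `τ` -/
theorem nagSys {ι : Type} {τ : ι → ℝ} (hτ : ∀ i, 0 ≤ τ i) :
    Pool.Agent.TH181.NagM.NagSys (fun k (B : ι → ℝ) i => k * B i) (fun B S => EmpV τ B S) where
  mono h hS := h.mono hS
  comap h a b c d u v hd hS := h.comap hτ a b c d u v hd hS
  flat0 h h' := EmpV.flat0 hτ h h'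
  Q3 hN h := EmpV.Q3 hτ hN _ _ h
  pow k hk hS h := EmpV.pow hτ k hk hS h

end Pool.Agent.TH116.Val
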