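import Pool.Agent.TH181.Nag.Sys

/-! Emptiness for families of germs of curves with weights: quasimonomial valuations.

The local ring of a point of a surface over `K` with parameters `s, n` is
`Loc K = K[[s]][[n]]`. The valuation with weights `1, τ` of `s, n` is at least `B` on `F` iff
all coefficients of `s ^ k * n ^ j` with `k + τ j < B` vanish (`VGe τ B F`). -/

namespace Pool.Agent.TH116.Val

open Finset Pool.Agent.TH176.Nag

/-- the ring `K[[s]][[n]]` -/
abbrev Loc (K : Type*) [CommRing K] := PowerSeries (PowerSeries K)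

/-- the coefficient of `s ^ k * n ^ j` -/
noncomputable def co {K : Type*} [CommRing K] (k j : ℕ) : Loc K →ₗ[K] K where
  toFun F := PowerSeries.coeff k (PowerSeries.coeff j F)
  map_add' F G := by simp
  map_smul' a F := by
    show PowerSeries.coeff k (PowerSeries.coeff j (a • F)) = _
    have : PowerSeries.coeff j (a • F) = a • PowerSeries.coeff j F := rfl
    rw [this, PowerSeries.coeff_smul]
    rfl

theorem co_apply {K : Type*} [CommRing K] (k j : ℕ) (F : Loc K) :
    co k j F = PowerSeries.coeff k (PowerSeries.coeff j F) := rfl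

/-- the value of `F` for the weights `1, τ` of `s, n` is at least `B` -/
def VGe {K : Type*} [CommRing K] (τ B : ℝ) (F : Loc K) : Prop :=
  ∀ k j : ℕ, (k : ℝ) + τ * j < B → co k j F = 0

section ev
variable {K A : Type*} [Field K] [CommRing A] [Algebra K A]

/-- the monomials in two units -/
def mu (X Y : Aˣ) : Multiplicative (ℤ × ℤ) →* A where
  toFun m := ((X ^ m.toAdd.1 * Y ^ m.toAdd.2 : Aˣ) : A)
  map_one' := by simp
  map_mul' a b := by
    rw [← Units.val_mul]
    congr 1
    simp only [toAdd_mul, Prod.fst_add, Prod.snd_add, zpow_add]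
    exact mul_mul_mul_comm _ _ _ _

/-- evaluation of Laurent polynomials at two units -/
noncomputable def evH (X Y : Aˣ) : Lau K →ₐ[K] A := AddMonoidAlgebra.lift K A (ℤ × ℤ) (mu X Y)

/-- evaluation of Laurent polynomials, given by their coefficients, at two units -/
noncomputable def ev (X Y : Aˣ) (f : (ℤ × ℤ) →₀ K) : A :=
  f.sum fun m a => a • ((X ^ m.1 * Y ^ m.2 : Aˣ) : A)

theorem evH_eq (X Y : Aˣ) (f : Lau K) : evH X Y f = ev X Y f.coeff := by
  unfold evH ev
  rw [AddMonoidAlgebra.lift_apply]
  rfl

theorem evH_mon (X Y : Aˣ) (m : ℤ × ℤ) : evH X Y (mon K m) = ((X ^ m.1 * Y ^ m.2 : Aˣ) : A) := by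
  unfold evH mon
  rw [AddMonoidAlgebra.lift_single, one_smul]
  rfl

end ev

/-- for some germs of curves with parameters, given by pairs of units of `K[[s]][[n]]`, over some
field of characteristic zero, there is no nonzero Laurent polynomial with exponents in `S` whose
value at the `i`-th germ is at least `B i` for the weights `1, τ i`, for all `i` -/
def EmpV {ι : Type} (τ B : ι → ℝ) (S : Set (ℤ × ℤ)) : Prop :=
  ∃ (K : Type) (_ : Field K) (_ : CharZero K) (X Y : ι → (Loc K)ˣ),
    ∀ f : (ℤ × ℤ) →₀ K, (↑f.support : Set (ℤ × ℤ)) ⊆ S →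
      (∀ i, VGe (τ i) (B i) (ev (X i) (Y i) f)) → f = 0

end Pool.Agent.TH116.Val
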