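import Pool.Agent.TH116.Val.Chart

/-! The final case: germs of the curve `y = 1` at points of the line. -/

namespace Pool.Agent.TH116.Val

open Finset Pool.Agent.TH176.Nag Pool.Agent.TH181.Nag

/-- the unit `c + s` of `K[[s]]`, `c ≠ 0` -/
theorem exists_cs {K : Type*} [Field K] {c : K} (hc : c ≠ 0) : ∃ u : (PowerSeries K)ˣ,
    (u : PowerSeries K) = PowerSeries.C c + PowerSeries.X := by
  have h : IsUnit (PowerSeries.C c + PowerSeries.X : PowerSeries K) := by
    rw [PowerSeries.isUnit_iff_constantCoeff]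
    simpa using hc
  exact ⟨h.unit, h.unit_spec⟩

/-- the unit `1 + n` -/
theorem exists_one_n (K : Type*) [Field K] : ∃ u : (Loc K)ˣ, (u : Loc K) = 1 + PowerSeries.X := by
  have h : IsUnit (1 + PowerSeries.X : Loc K) := by
    rw [PowerSeries.isUnit_iff_constantCoeff]
    simp
  exact ⟨h.unit, h.unit_spec⟩

theorem coeff_one_add {R : Type*} [CommRing R] (j b : ℕ) :
    PowerSeries.coeff b ((1 + PowerSeries.X : PowerSeries R) ^ j) = (j.choose b : R) := by
  have h : ((1 + PowerSeries.X : PowerSeries R) ^ j) =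
      (((1 + Polynomial.X : Polynomial R) ^ j : Polynomial R) : PowerSeries R) := by
    rw [Polynomial.coe_pow, Polynomial.coe_add, Polynomial.coe_one, Polynomial.coe_X]
  rw [h, Polynomial.coeff_coe, Polynomial.coeff_one_add_X_pow]

/-- vanishing to order `e` at `c` -/
theorem dvd_of_coeff {K : Type*} [Field K] (p : Polynomial K) (c : K) (e : ℕ)
    (h : (PowerSeries.X : PowerSeries K) ^ e ∣
      Polynomial.aeval (PowerSeries.C c + PowerSeries.X : PowerSeries K) p) :
    (Polynomial.X - Polynomial.C c) ^ e ∣ p := by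
  have h1 : Polynomial.aeval (PowerSeries.C c + PowerSeries.X : PowerSeries K) p =
      ((Polynomial.taylor c p : Polynomial K) : PowerSeries K) := by
    rw [Polynomial.taylor_apply, Polynomial.comp, Polynomial.aeval_def]
    have h2 := Polynomial.hom_eval₂ p (Polynomial.C : K →+* Polynomial K)
      (Polynomial.coeToPowerSeries.ringHom (R := K)) (Polynomial.X + Polynomial.C c)
    have h3 : ∀ q : Polynomial K, Polynomial.coeToPowerSeries.ringHom (R := K) q = (q : PowerSeries K) :=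
      fun _ => rfl
    rw [h3] at h2
    rw [h2, h3, Polynomial.coe_add, Polynomial.coe_X, Polynomial.coe_C, add_comm]
    congr 1
    refine RingHom.ext fun a => ?_
    rw [RingHom.comp_apply, h3, Polynomial.coe_C]
    rfl
  rw [h1, PowerSeries.X_pow_dvd_iff] at h
  rw [Polynomial.X_sub_C_pow_dvd_iff]
  have h4 : p.comp (Polynomial.X + Polynomial.C c) = Polynomial.taylor c p := rfl
  rw [h4, Polynomial.X_pow_dvd_iff]
  intro d hd
  have := h d hd
  rwa [Polynomial.coeff_coe] at this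

theorem EmpV.final {ι : Type} [Fintype ι] {τ B : ι → ℝ} {α W : ℝ} (hW : W < ∑ i, B i) :
    EmpV τ B (Reg α (α + W) 0 (∑ i, τ i)) := by
  classical
  -- distinct nonzero numbers
  obtain ⟨e⟩ : Nonempty (ι ≃ Fin (Fintype.card ι)) := ⟨Fintype.equivFin ι⟩
  let c : ι → ℚ := fun i => ((e i : ℕ) : ℚ) + 1
  have hc : ∀ i, c i ≠ 0 := fun i => by
    have : (0 : ℚ) ≤ ((e i : ℕ) : ℚ) := Nat.cast_nonneg _
    simp only [c]; linarith
  have hcinj : Function.Injective c := by
    intro i j h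
    simp only [c, add_left_inj, Nat.cast_inj] at h
    exact e.injective (Fin.ext h)
  choose ξ hξ using fun i => exists_cs (hc i)
  obtain ⟨Y, hY⟩ := exists_one_n ℚ
  let X : ι → (Loc ℚ)ˣ := fun i =>
    Units.map (PowerSeries.C (R := PowerSeries ℚ) : PowerSeries ℚ →* Loc ℚ) (ξ i)
  refine ⟨ℚ, inferInstance, inferInstance, X, fun _ => Y, fun f hfS hfL => ?_⟩
  by_contra hf0
  have hne : f.support.Nonempty := Finsupp.support_nonempty_iff.2 hf0
  obtain ⟨m0, hm0, hmax⟩ := Finset.exists_max_image f.support (fun m => m.2) hne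
  obtain ⟨b, hb⟩ := Int.eq_ofNat_of_zero_le (hfS hm0).1
  -- the top row
  obtain ⟨row, hrow⟩ : ∃ row, row = f.support.filter (fun m => m.2 = (b : ℤ)) := ⟨_, rfl⟩
  have hm0r : m0 ∈ row := by rw [hrow, mem_filter]; exact ⟨hm0, hb⟩
  obtain ⟨m1, hm1, hmin⟩ := Finset.exists_min_image row (fun m => m.1) ⟨m0, hm0r⟩
  obtain ⟨a0, ha0⟩ : ∃ a0, a0 = m1.1 := ⟨_, rfl⟩
  rw [← ha0] at hmin
  obtain ⟨p, hp⟩ : ∃ p : Polynomial ℚ, p = ∑ m ∈ row, Polynomial.monomial (m.1 - a0).toNat (f m) :=
    ⟨_, rfl⟩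
  have hrow2 : ∀ m ∈ row, m.2 = b ∧ m ∈ f.support := by
    intro m hm
    rw [hrow, mem_filter] at hm
    exact ⟨hm.2, hm.1⟩
  have hp0 : p ≠ 0 := by
    intro h0
    have h1 : p.coeff 0 = f m1 := by
      rw [hp, Polynomial.finsetSum_coeff, Finset.sum_eq_single m1]
      · rw [Polynomial.coeff_monomial, if_pos (by rw [← ha0]; simp)]
      · intro m hm hmne
        rw [Polynomial.coeff_monomial, if_neg]
        intro h2
        have h3 := hmin m hm
        apply hmne
        ext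
        · rw [← ha0]; omega
        · rw [(hrow2 m hm).1, (hrow2 m1 hm1).1]
      · intro h; exact absurd hm1 h
    rw [h0, Polynomial.coeff_zero] at h1
    exact (Finsupp.mem_support_iff.1 (hrow2 m1 hm1).2) h1.symm
  -- the degree
  have hdeg : ((p.natDegree : ℕ) : ℝ) ≤ W - (∑ i, τ i) * b := by
    have h1 : ∀ m ∈ row, (((m.1 - a0).toNat : ℕ) : ℝ) ≤ W - (∑ i, τ i) * b := by
      intro m hm
      obtain ⟨h1, h2, h3⟩ := hfS (hrow2 m hm).2
      obtain ⟨g1, g2, g3⟩ := hfS (hrow2 m1 hm1).2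
      rw [(hrow2 m hm).1] at h3
      rw [(hrow2 m1 hm1).1] at g2
      have h4 : (((m.1 - a0).toNat : ℕ) : ℤ) = m.1 - a0 := Int.toNat_of_nonneg (by have := hmin m hm; omega)
      have h5 : (((m.1 - a0).toNat : ℕ) : ℝ) = (m.1 : ℝ) - a0 := by exact_mod_cast h4
      rw [h5, ha0]
      push_cast at h3 g2
      linarith
    by_contra hlt
    push Not at hlt
    have h2 : p.coeff p.natDegree = 0 := by
      rw [hp, Polynomial.finsetSum_coeff]
      refine sum_eq_zero fun m hm => ?_
      rw [Polynomial.coeff_monomial, if_neg]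
      intro h3
      have h4 := h1 m hm
      rw [h3, ← hp] at h4
      linarith
    exact hp0 (Polynomial.leadingCoeff_eq_zero.1 h2)
  -- the evaluation
  have hev : ∀ i k, co k b (ev (X i) Y f) =
      PowerSeries.coeff k (((ξ i ^ a0 : (PowerSeries ℚ)ˣ) : PowerSeries ℚ) *
        Polynomial.aeval (ξ i : PowerSeries ℚ) p) := by
    intro i k
    have h1 : PowerSeries.coeff b (ev (X i) Y f) =
        ((ξ i ^ a0 : (PowerSeries ℚ)ˣ) : PowerSeries ℚ) * Polynomial.aeval (ξ i : PowerSeries ℚ) p := by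
      rw [ev_eq_sum (subset_refl f.support), map_sum, hp, map_sum, mul_sum]
      rw [hrow, sum_filter]
      refine sum_congr rfl fun m hm => ?_
      obtain ⟨j, hj⟩ := Int.eq_ofNat_of_zero_le (hfS hm).1
      have hjb : j ≤ b := by have := hmax m hm; omega
      have h2 : ((X i ^ m.1 * Y ^ m.2 : (Loc ℚ)ˣ) : Loc ℚ) =
          PowerSeries.C ((ξ i ^ m.1 : (PowerSeries ℚ)ˣ) : PowerSeries ℚ) * (1 + PowerSeries.X) ^ j := by
        rw [Units.val_mul, hj, zpow_natCast, Units.val_pow_eq_pow_val, hY]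
        congr 1
        show ((Units.map (PowerSeries.C (R := PowerSeries ℚ) : PowerSeries ℚ →* Loc ℚ) (ξ i) ^ m.1 :
          (Loc ℚ)ˣ) : Loc ℚ) = _
        rw [← map_zpow]
        rfl
      have h3 : PowerSeries.coeff b (f m • ((X i ^ m.1 * Y ^ m.2 : (Loc ℚ)ˣ) : Loc ℚ)) =
          f m • (((ξ i ^ m.1 : (PowerSeries ℚ)ˣ) : PowerSeries ℚ) * ((j.choose b : ℕ) : PowerSeries ℚ)) := by
        rw [h2]
        show PowerSeries.coeff b (f m • (PowerSeries.C ((ξ i ^ m.1 : (PowerSeries ℚ)ˣ) :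
          PowerSeries ℚ) * (1 + PowerSeries.X) ^ j)) = _
        have h4 : ∀ (a : ℚ) (G : Loc ℚ), PowerSeries.coeff b (a • G) = a • PowerSeries.coeff b G :=
          fun _ _ => rfl
        rw [h4, PowerSeries.coeff_C_mul, coeff_one_add]
      rw [h3]
      by_cases hmb : m.2 = b
      · have hjb' : j = b := by omega
        subst hjb'
        rw [if_pos hmb, Nat.choose_self, Nat.cast_one, mul_one, Polynomial.aeval_monomial]
        have hmr : m ∈ row := by rw [hrow, mem_filter]; exact ⟨hm, hmb⟩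
        have h5 : ((ξ i ^ m.1 : (PowerSeries ℚ)ˣ) : PowerSeries ℚ) =
            ((ξ i ^ a0 : (PowerSeries ℚ)ˣ) : PowerSeries ℚ) * (ξ i : PowerSeries ℚ) ^ (m.1 - a0).toNat := by
          rw [← Units.val_pow_eq_pow_val, ← Units.val_mul, ← zpow_natCast, ← zpow_add]
          congr 2
          have := hmin m hmr
          omega
        rw [h5, Algebra.smul_def]
        ring
      · have hjb' : j < b := by omega
        rw [if_neg hmb, Nat.choose_eq_zero_of_lt hjb', Nat.cast_zero, mul_zero, smul_zero]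
    rw [co_apply, h1]
  -- the divisibility
  have hdvd : ∀ i, (Polynomial.X - Polynomial.C (c i)) ^ ⌈B i - τ i * b⌉₊ ∣ p := by
    intro i
    apply dvd_of_coeff
    rw [← hξ i]
    have h1 : (PowerSeries.X : PowerSeries ℚ) ^ ⌈B i - τ i * b⌉₊ ∣
        ((ξ i ^ a0 : (PowerSeries ℚ)ˣ) : PowerSeries ℚ) * Polynomial.aeval (ξ i : PowerSeries ℚ) p := by
      rw [PowerSeries.X_pow_dvd_iff]
      intro k hk
      rw [← hev i k]
      apply hfL i
      have := Nat.lt_ceil.1 hk
      linarith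
    exact (Units.dvd_mul_left).1 h1
  have hprod : ∏ i, (Polynomial.X - Polynomial.C (c i)) ^ ⌈B i - τ i * b⌉₊ ∣ p := by
    apply Finset.prod_dvd_of_coprime
    · intro i _ j _ hij
      refine IsCoprime.pow ?_
      exact Polynomial.isCoprime_X_sub_C_of_isUnit_sub
        (IsUnit.mk0 _ (sub_ne_zero.2 fun h => hij (hcinj h)))
    · intro i _
      exact hdvd i
  have h1 := Polynomial.natDegree_le_of_dvd hprod hp0
  rw [Polynomial.natDegree_prod_of_monic _ _ (fun i _ => (Polynomial.monic_X_sub_C _).pow _)] at h1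
  have h2 : ∑ i, (⌈B i - τ i * b⌉₊ : ℕ) ≤ p.natDegree := by
    refine le_trans (le_of_eq (sum_congr rfl fun i _ => ?_)) h1
    rw [Polynomial.natDegree_pow, Polynomial.natDegree_X_sub_C, mul_one]
  have h3 : (∑ i, (B i - τ i * b) : ℝ) ≤ ((∑ i, (⌈B i - τ i * b⌉₊ : ℕ) : ℕ) : ℝ) := by
    push_cast
    exact sum_le_sum fun i _ => Nat.le_ceil _
  have h4 : ((∑ i, (⌈B i - τ i * b⌉₊ : ℕ) : ℕ) : ℝ) ≤ p.natDegree := by exact_mod_cast h2
  rw [sum_sub_distrib, ← sum_mul] at h3
  linarith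

end Pool.Agent.TH116.Val
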