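import Pool.Agent.TH116.Val.Root

/-! Flattening for germs of curves. -/

namespace Pool.Agent.TH116.Val

open Finset Pool.Agent.TH176.Nag Pool.Agent.TH181.Nag

theorem co00 {K : Type*} [CommRing K] (F : Loc K) :
    co 0 0 F = PowerSeries.constantCoeff (PowerSeries.constantCoeff F) := by
  simp [co_apply]

theorem isUnit_loc {K : Type*} [Field K] {F : Loc K} : IsUnit F ↔ co 0 0 F ≠ 0 := by
  rw [co00, PowerSeries.isUnit_iff_constantCoeff, PowerSeries.isUnit_iff_constantCoeff,
    isUnit_iff_ne_zero]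

section
variable {K : Type} [Field K]

/-- the embedding of constants -/
noncomputable abbrev CC (K : Type) [Field K] : K →+* LaurentSeries K := HahnSeries.C

/-- the coefficients of a Laurent polynomial over the Laurent series -/
theorem VGe_coeff {τ B : ℝ} {X Y : (Loc K)ˣ} {g : (ℤ × ℤ) →₀ LaurentSeries K}
    (h : VGe τ B (ev (mapU (CC K) X) (mapU (CC K) Y) g)) (n : ℤ) :
    VGe τ B (ev X Y (g.mapRange (fun u => u.coeff n) rfl)) := by
  intro k j hkj
  have h3 := h k j hkj
  rw [co_ev] at h3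
  have h4 := congrArg (fun u : LaurentSeries K => u.coeff n) h3
  simp only [HahnSeries.coeff_zero, HahnSeries.coeff_sum] at h4
  rw [co_ev, ← h4]
  have h5 : (g.mapRange (fun u : LaurentSeries K => u.coeff n) rfl).support ⊆ g.support :=
    Finsupp.support_mapRange
  refine (sum_subset h5 fun m _ hm => ?_).trans (sum_congr rfl fun m _ => ?_)
  · rw [Finsupp.notMem_support_iff.1 hm, zero_mul]
  · rw [mapU_mono, co_mapL, coeff_mul_cst, mul_comm]
    rfl

/-- the unit `1 + t Y` -/
theorem exists_one_add (Y : (Loc K)ˣ) : ∃ Z : (Loc (LaurentSeries K))ˣ,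
    (Z : Loc (LaurentSeries K)) = 1 + tv K • (mapU (CC K) Y : Loc (LaurentSeries K)) := by
  have h : IsUnit (1 + tv K • (mapU (CC K) Y : Loc (LaurentSeries K))) := by
    rw [isUnit_loc, map_add, map_smul]
    have h1 : (mapU (CC K) Y : Loc (LaurentSeries K)) = mapL (CC K) (Y : Loc K) := rfl
    rw [h1, co_mapL]
    have h2 : co 0 0 (1 : Loc (LaurentSeries K)) = 1 := by
      rw [co00]; simp
    rw [h2]
    intro h3
    have h4 := congrArg (fun u : LaurentSeries K => u.coeff 0) h3
    simp only [HahnSeries.coeff_add, smul_eq_mul, coeff_mul_cst, HahnSeries.coeff_zero] at h4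
    have h5 : (tv K).coeff 0 = 0 := by simp [tv]
    rw [h5] at h4
    simp at h4
  exact ⟨h.unit, h.unit_spec⟩

theorem ev_flt {N0 : ℕ} {f : (ℤ × ℤ) →₀ LaurentSeries K} (hN0 : ∀ m ∈ f.support, 0 ≤ m.2 + N0)
    (X Y Z : (Loc (LaurentSeries K))ˣ) (hZ : (Z : Loc (LaurentSeries K)) = 1 + tv K • (Y : Loc (LaurentSeries K))) :
    ev X Y (flt N0 f) = ev X Z f * ((Z ^ N0 : (Loc (LaurentSeries K))ˣ) : Loc (LaurentSeries K)) := by
  unfold flt
  rw [ev_sum]
  conv_rhs => rw [ev, Finsupp.sum, sum_mul]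
  refine sum_congr rfl fun m hm => ?_
  rw [ev_sum]
  obtain ⟨b, hb⟩ := Int.eq_ofNat_of_zero_le (hN0 m hm)
  have hb' : (m.2 + (N0 : ℤ)).toNat = b := by omega
  have hm2 : m.2 = (b : ℤ) - N0 := by omega
  rw [hb', smul_mul_assoc, ← Units.val_mul, mul_assoc, ← zpow_natCast, ← zpow_add, hm2,
    sub_add_cancel, zpow_natCast, Units.val_mul, Units.val_pow_eq_pow_val, hZ, add_comm 1, add_pow,
    mul_sum, smul_sum]
  refine sum_congr rfl fun j _ => ?_
  rw [ev_single]
  simp only [zpow_natCast, Units.val_mul, Units.val_pow_eq_pow_val, one_pow, mul_one]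
  simp only [Algebra.smul_def, map_mul, map_pow, map_natCast, mul_pow]
  ring

end

/-- the flattening lemma for the covector `(1, 0)` -/
theorem EmpV.flat0 {ι : Type} {τ B : ι → ℝ} {S S' : Set (ℤ × ℤ)} (hτ : ∀ i, 0 ≤ τ i)
    (hS : ∀ (a : ℤ) (B : Finset ℤ), (∀ b ∈ B, ((a, b) : ℤ × ℤ) ∈ S) →
      ∀ k : ℕ, k < B.card → ((a, (k : ℤ)) : ℤ × ℤ) ∈ S') (h : EmpV τ B S') : EmpV τ B S := by
  classical
  obtain ⟨K, _, _, X, Y, hf⟩ := h
  choose Z hZ using fun i => exists_one_add (Y i)
  refine ⟨LaurentSeries K, inferInstance, inferInstance, fun i => mapU (CC K) (X i), Z, ?_⟩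
  intro f hfS hfL
  by_contra hne
  obtain ⟨N0, hN0⟩ : ∃ N0 : ℕ, ∀ m ∈ f.support, 0 ≤ m.2 + (N0 : ℤ) := by
    refine ⟨∑ m ∈ f.support, m.2.natAbs, fun m hm => ?_⟩
    have : m.2.natAbs ≤ ∑ m ∈ f.support, m.2.natAbs :=
      single_le_sum (f := fun m : ℤ × ℤ => m.2.natAbs) (fun _ _ => Nat.zero_le _) hm
    omega
  obtain ⟨n, hn1, hn2, hn3⟩ := exists_lead (flt_ne_zero hN0 hne)
  apply hn1
  apply hf
  · intro m hm
    have hm' : (flt N0 f m).coeff n ≠ 0 := by
      simpa using hm
    by_cases hneg : m.2 < 0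
    · exfalso
      apply hm'
      have : flt N0 f (m.1, m.2) = 0 := flt_apply_neg N0 f m.1 m.2 hneg
      have e : m = (m.1, m.2) := rfl
      rw [e, this]; simp
    · obtain ⟨j, hj⟩ := Int.eq_ofNat_of_zero_le (not_lt.1 hneg)
      have e : m = (m.1, (j : ℤ)) := by ext <;> simp [hj]
      rw [e] at hm' ⊢
      have hlt : j < (fib N0 f m.1).card := by
        by_contra hge
        exact hm' (flt_coeff_eq_zero hN0 hn2 (not_lt.1 hge))
      have hB := hS m.1 ((f.support.filter (fun m' => m'.1 = m.1)).image Prod.snd) (by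
        intro b hb
        rw [mem_image] at hb
        obtain ⟨m', hm1, rfl⟩ := hb
        rw [mem_filter] at hm1
        apply hfS
        rw [← hm1.2]
        exact hm1.1) j
      apply hB
      have hcard : (fib N0 f m.1).card ≤ ((f.support.filter (fun m' => m'.1 = m.1)).image Prod.snd).card := by
        have : fib N0 f m.1 = (((f.support.filter (fun m' => m'.1 = m.1)).image Prod.snd)).image
            (fun b : ℤ => (b + N0).toNat) := by
          unfold fib; rw [image_image]; rfl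
        rw [this]
        exact card_image_le
      omega
  · intro i
    apply VGe_coeff
    rw [ev_flt hN0 _ _ (Z i) (hZ i)]
    exact (hfL i).mul_right (hτ i) _

end Pool.Agent.TH116.Val
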