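import Pool.Agent.TH116.Val.Root
import Pool.Agent.TH15.NagEmpGeneric

/-! From one family of germs over some field to general families of germs over every field. -/

namespace Pool.Agent.TH116.Val

open Finset Pool.Agent.TH176.Nag Pool.Agent.TH181.Nag

/-- evaluation of polynomials, given by their coefficients -/
noncomputable def evP {K A : Type*} [Field K] [CommRing A] [Algebra K A] (X Y : A)
    (f : (ℤ × ℤ) →₀ K) : A :=
  f.sum fun m a => a • (X ^ m.1.toNat * Y ^ m.2.toNat)

theorem ev_eq_evP {K A : Type*} [Field K] [CommRing A] [Algebra K A] (X Y : Aˣ)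
    (f : (ℤ × ℤ) →₀ K) (hf : ∀ m ∈ f.support, 0 ≤ m.1 ∧ 0 ≤ m.2) :
    ev X Y f = evP (X : A) (Y : A) f := by
  unfold ev evP Finsupp.sum
  refine sum_congr rfl fun m hm => ?_
  obtain ⟨h1, h2⟩ := hf m hm
  obtain ⟨a, ha⟩ := Int.eq_ofNat_of_zero_le h1
  obtain ⟨b, hb⟩ := Int.eq_ofNat_of_zero_le h2
  beta_reduce
  rw [ha, hb]
  simp

/-- the series with given coefficients: `c (i, b, k, j)` is the coefficient of `s ^ k n ^ j` -/
noncomputable def ser {ι R : Type*} [CommRing R] (c : ι × Bool × ℕ × ℕ → R) (i : ι) (b : Bool) : Loc R :=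
  PowerSeries.mk fun j => PowerSeries.mk fun k => c (i, b, k, j)

theorem co_ser {ι R : Type*} [CommRing R] (c : ι × Bool × ℕ × ℕ → R) (i : ι) (b : Bool) (k j : ℕ) :
    co k j (ser c i b) = c (i, b, k, j) := by
  simp [co_apply, ser]

theorem ext_co {R : Type*} [CommRing R] {F G : Loc R} (h : ∀ k j, co k j F = co k j G) : F = G := by
  ext j k
  exact h k j

theorem mapL_ser {ι R R' : Type*} [CommRing R] [CommRing R'] (φ : R →+* R')
    (c : ι × Bool × ℕ × ℕ → R) (i : ι) (b : Bool) :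
    mapL φ (ser c i b) = ser (fun q => φ (c q)) i b := by
  refine ext_co fun k j => ?_
  rw [co_mapL, co_ser, co_ser]

theorem co_evP {K : Type*} [Field K] (X Y : Loc K) (f : (ℤ × ℤ) →₀ K) (k j : ℕ) :
    co k j (evP X Y f) = ∑ m ∈ f.support, f m * co k j (X ^ m.1.toNat * Y ^ m.2.toNat) := by
  unfold evP Finsupp.sum
  rw [map_sum]
  refine sum_congr rfl fun m _ => ?_
  rw [map_smul, smul_eq_mul]

/-- the condition on the coefficients for general families of germs -/
theorem exists_poly {ι : Type} {τ B : ι → ℝ} {S : Set (ℤ × ℤ)} (hfin : S.Finite)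
    (hpos : ∀ m ∈ S, 0 ≤ m.1 ∧ 0 ≤ m.2) (h : EmpV τ B S) :
    ∃ P : MvPolynomial (ι × Bool × ℕ × ℕ) ℤ, P ≠ 0 ∧ ∀ (F : Type) [Field F]
      (c : ι × Bool × ℕ × ℕ → F), MvPolynomial.aeval c P ≠ 0 →
      ∀ f : (ℤ × ℤ) →₀ F, (↑f.support : Set (ℤ × ℤ)) ⊆ S →
        (∀ i, VGe (τ i) (B i) (evP (ser c i false) (ser c i true) f)) → f = 0 := by
  classical
  obtain ⟨K, _, _, X, Y, hK⟩ := h
  have : Fintype S := hfin.fintype
  let R := {r : ι × ℕ × ℕ // (r.2.1 : ℝ) + τ r.1 * r.2.2 < B r.1}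
  let U : ι → Bool → Loc (MvPolynomial (ι × Bool × ℕ × ℕ) ℤ) := ser (fun q => MvPolynomial.X q)
  let P : R → S → MvPolynomial (ι × Bool × ℕ × ℕ) ℤ := fun r m =>
    co r.1.2.1 r.1.2.2 (U r.1.1 false ^ (m : ℤ × ℤ).1.toNat * U r.1.1 true ^ (m : ℤ × ℤ).2.toNat)
  have heval : ∀ (F : Type) [Field F] (c : ι × Bool × ℕ × ℕ → F) (r : R) (m : S),
      MvPolynomial.aeval c (P r m) = co r.1.2.1 r.1.2.2 (ser c r.1.1 false ^ (m : ℤ × ℤ).1.toNat *
        ser c r.1.1 true ^ (m : ℤ × ℤ).2.toNat) := by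
    intro F _ c r m
    have h1 : ∀ i b, mapL ((MvPolynomial.aeval c : MvPolynomial (ι × Bool × ℕ × ℕ) ℤ →ₐ[ℤ] F) :
        MvPolynomial (ι × Bool × ℕ × ℕ) ℤ →+* F) (U i b) =
        ser c i b := by
      intro i b
      refine (mapL_ser _ _ _ _).trans ?_
      congr 1
      funext q
      exact MvPolynomial.aeval_X c q
    rw [← h1, ← h1, ← map_pow, ← map_pow, ← map_mul, co_mapL]
    rfl
  -- the given germs
  obtain ⟨c, hc⟩ : ∃ c : ι × Bool × ℕ × ℕ → K, c = fun q =>
    co q.2.2.1 q.2.2.2 (if q.2.1 then (Y q.1 : Loc K) else (X q.1 : Loc K)) := ⟨_, rfl⟩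
  have hX : ∀ i, ser c i false = (X i : Loc K) := by
    intro i
    refine ext_co fun k j => ?_
    rw [co_ser, hc]
    simp
  have hY : ∀ i, ser c i true = (Y i : Loc K) := by
    intro i
    refine ext_co fun k j => ?_
    rw [co_ser, hc]
    simp
  have hsum : ∀ (F : Type) [Field F] (f : (ℤ × ℤ) →₀ F), (↑f.support : Set (ℤ × ℤ)) ⊆ S →
      ∀ (φ : ℤ × ℤ → F), ∑ m ∈ f.support, f m * φ m = ∑ m : S, φ m * f m := by
    intro F _ f hf φ
    have h1 : f.support ⊆ S.toFinset := fun m hm => by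
      rw [Set.mem_toFinset]; exact hf hm
    rw [sum_subset h1 (fun m _ hm => by rw [Finsupp.notMem_support_iff.1 hm, zero_mul])]
    rw [← Finset.sum_coe_sort S.toFinset (fun m => f m * φ m)]
    refine Fintype.sum_equiv (Equiv.subtypeEquivRight fun m => Set.mem_toFinset) _ _ fun m => ?_
    rw [mul_comm]
    rfl
  obtain ⟨a, ha⟩ := Pool.Agent.TH15.Nag.exists_rows (K := K) (R := R) (σ := S)
    (fun r m => MvPolynomial.aeval c (P r m)) (by
      intro g hg
      obtain ⟨f, hf1, hf2⟩ : ∃ f : (ℤ × ℤ) →₀ K, (↑f.support : Set (ℤ × ℤ)) ⊆ S ∧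
          ∀ m : S, f m = g m := by
        refine ⟨Finsupp.onFinset S.toFinset (fun m => if h : m ∈ S then g ⟨m, h⟩ else 0) ?_, ?_, ?_⟩
        · intro m hm
          rw [Set.mem_toFinset]
          by_contra h
          rw [dif_neg h] at hm
          exact hm rfl
        · intro m hm
          have := Finsupp.support_onFinset_subset (Finset.mem_coe.1 hm)
          rwa [Set.mem_toFinset] at this
        · intro m
          rw [Finsupp.onFinset_apply, dif_pos m.2]
      have hf0 : f = 0 := by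
        apply hK f hf1
        intro i k j hkj
        rw [ev_eq_evP _ _ _ (fun m hm => hpos m (hf1 hm)), co_evP, hsum K f hf1]
        have h1 := hg ⟨(i, k, j), hkj⟩
        rw [← h1]
        refine sum_congr rfl fun m _ => ?_
        rw [heval, hX, hY, hf2]
      funext m
      rw [← hf2 m, hf0]
      rfl)
  refine ⟨(Matrix.of fun j m => P (a j) m).det, ?_, ?_⟩
  · intro h0
    apply ha
    have h1 : (Matrix.of fun j m => MvPolynomial.aeval c (P (a j) m)) =
        ((MvPolynomial.aeval c : MvPolynomial (ι × Bool × ℕ × ℕ) ℤ →ₐ[ℤ] K) :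
          MvPolynomial (ι × Bool × ℕ × ℕ) ℤ →+* K).mapMatrix
          (Matrix.of fun j m => P (a j) m) := rfl
    rw [h1, ← RingHom.map_det, h0, map_zero]
  · intro F _ c' hc' f hf hV
    by_contra hne
    apply hc'
    have h1 : (Matrix.of fun j m => MvPolynomial.aeval c' (P (a j) m)) =
        ((MvPolynomial.aeval c' : MvPolynomial (ι × Bool × ℕ × ℕ) ℤ →ₐ[ℤ] F) :
          MvPolynomial (ι × Bool × ℕ × ℕ) ℤ →+* F).mapMatrix
          (Matrix.of fun j m => P (a j) m) := rfl
    have h2 : (Matrix.of fun j m => MvPolynomial.aeval c' (P (a j) m)).det = 0 := by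
      rw [← Matrix.exists_mulVec_eq_zero_iff]
      refine ⟨fun m => f m, fun h => hne ?_, ?_⟩
      · ext m
        by_cases hm : m ∈ S
        · exact congrFun h ⟨m, hm⟩
        · have : m ∉ f.support := fun h => hm (hf h)
          rw [Finsupp.notMem_support_iff.1 this]; rfl
      · funext j
        rw [Matrix.mulVec, dotProduct]
        have h3 := hV (a j).1.1 (a j).1.2.1 (a j).1.2.2 (a j).2
        rw [co_evP, hsum F f hf] at h3
        rw [Pi.zero_apply, ← h3]
        refine sum_congr rfl fun m _ => ?_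
        rw [Matrix.of_apply, heval]
    rw [h1, ← RingHom.map_det] at h2
    exact h2

end Pool.Agent.TH116.Val
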