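import Pool.Agent.TH116.Val.Basic

/-! Roots of units of `K[[s]][[n]]` and the move to sublattices. -/

namespace Pool.Agent.TH116.Val

open Finset Pool.Agent.TH176.Nag Pool.Agent.TH181.Nag

/-- roots of power series by Hensel's lemma -/
theorem exists_root {R : Type*} [CommRing R] (F : PowerSeries R) {D : ℕ} (hD : 0 < D) (r : R)
    (hr : r ^ D = PowerSeries.constantCoeff F) (hu : IsUnit ((D : R) * r ^ (D - 1))) :
    ∃ G : PowerSeries R, G ^ D = F := by
  have hH : HenselianRing (PowerSeries R) (Ideal.span {PowerSeries.X}) := inferInstance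
  obtain ⟨a, ha, -⟩ := hH.is_henselian (Polynomial.X ^ D - Polynomial.C F)
    (Polynomial.monic_X_pow_sub_C F hD.ne') (PowerSeries.C r) (by
      rw [Ideal.mem_span_singleton, PowerSeries.X_dvd_iff]
      simp [hr]) (by
      refine IsUnit.map _ ?_
      rw [PowerSeries.isUnit_iff_constantCoeff, Polynomial.derivative_sub, Polynomial.derivative_C,
        sub_zero, Polynomial.derivative_X_pow]
      simpa using hu)
  refine ⟨a, ?_⟩
  have h1 : (Polynomial.X ^ D - Polynomial.C F).eval a = 0 := ha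
  simpa [sub_eq_zero] using h1

theorem exists_root_unit {K : Type*} [Field K] [CharZero K] [IsAlgClosed K] (F : (Loc K)ˣ) {D : ℕ}
    (hD : 0 < D) : ∃ G : (Loc K)ˣ, G ^ D = F := by
  have hF : IsUnit (PowerSeries.constantCoeff (F : Loc K)) :=
    PowerSeries.isUnit_iff_constantCoeff.1 F.isUnit
  have hF0 : IsUnit (PowerSeries.constantCoeff (PowerSeries.constantCoeff (F : Loc K))) :=
    PowerSeries.isUnit_iff_constantCoeff.1 hF
  obtain ⟨r, hr⟩ := IsAlgClosed.exists_pow_nat_eq
    (PowerSeries.constantCoeff (PowerSeries.constantCoeff (F : Loc K))) hD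
  have hr0 : r ≠ 0 := by
    rintro rfl
    rw [zero_pow hD.ne'] at hr
    exact hF0.ne_zero hr.symm
  have hDK : (D : K) ≠ 0 := by exact_mod_cast hD.ne'
  obtain ⟨g, hg⟩ := exists_root (PowerSeries.constantCoeff (F : Loc K)) hD r hr
    (IsUnit.mk0 _ (mul_ne_zero hDK (pow_ne_zero _ hr0)))
  have hgu : IsUnit g := by
    rw [← isUnit_pow_iff hD.ne', hg]
    exact hF
  obtain ⟨G, hG⟩ := exists_root (F : Loc K) hD g hg (by
    refine IsUnit.mul ?_ (hgu.pow _)
    rw [PowerSeries.isUnit_iff_constantCoeff]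
    simpa using hDK)
  have hGu : IsUnit G := by
    rw [← isUnit_pow_iff hD.ne', hG]
    exact F.isUnit
  refine ⟨hGu.unit, ?_⟩
  ext1
  rw [Units.val_pow_eq_pow_val, IsUnit.unit_spec, hG]

/-- change of coefficient rings -/
noncomputable def mapL {R R' : Type*} [CommRing R] [CommRing R'] (φ : R →+* R') :
    Loc R →+* Loc R' := PowerSeries.map (PowerSeries.map φ)

theorem co_mapL {R R' : Type*} [CommRing R] [CommRing R'] (φ : R →+* R') (k j : ℕ) (F : Loc R) :
    co k j (mapL φ F) = φ (co k j F) := by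
  simp [co_apply, mapL]

theorem co_ev {K : Type*} [Field K] (X Y : (Loc K)ˣ) (f : (ℤ × ℤ) →₀ K) (k j : ℕ) :
    co k j (ev X Y f) = ∑ m ∈ f.support, f m * co k j ((X ^ m.1 * Y ^ m.2 : (Loc K)ˣ) : Loc K) := by
  unfold ev Finsupp.sum
  rw [map_sum]
  refine sum_congr rfl fun m _ => ?_
  rw [map_smul, smul_eq_mul]

section
variable {ι : Type} {τ B : ι → ℝ} {S : Set (ℤ × ℤ)}

/-- emptiness for given germs -/
def EmpG {K : Type} [Field K] (τ B : ι → ℝ) (S : Set (ℤ × ℤ)) (X Y : ι → (Loc K)ˣ) : Prop :=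
  ∀ f : (ℤ × ℤ) →₀ K, (↑f.support : Set (ℤ × ℤ)) ⊆ S →
      (∀ i, VGe (τ i) (B i) (ev (X i) (Y i) f)) → f = 0

/-- change of the unit, the field extended -/
noncomputable def mapU {K K' : Type*} [CommRing K] [CommRing K'] (φ : K →+* K') : (Loc K)ˣ →* (Loc K')ˣ :=
  Units.map (mapL φ : Loc K →* Loc K')

theorem mapU_mono {K K' : Type*} [CommRing K] [CommRing K'] (φ : K →+* K') (X Y : (Loc K)ˣ)
    (m : ℤ × ℤ) : ((mapU φ X ^ m.1 * mapU φ Y ^ m.2 : (Loc K')ˣ) : Loc K') =
      mapL φ ((X ^ m.1 * Y ^ m.2 : (Loc K)ˣ) : Loc K) := by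
  rw [← map_zpow, ← map_zpow, ← map_mul]
  rfl

theorem EmpG.ext {K K' : Type} [Field K] [Field K'] [Algebra K K'] {X Y : ι → (Loc K)ˣ}
    (h : EmpG τ B S X Y) : EmpG τ B S (fun i => mapU (algebraMap K K') (X i))
      (fun i => mapU (algebraMap K K') (Y i)) := by
  intro f hfS hfL
  ext1 m
  by_contra hm
  have h1 : ¬ ∀ φ : Module.Dual K K', φ (f m) = 0 := by
    rw [Module.forall_dual_apply_eq_zero_iff]
    simpa using hm
  push Not at h1
  obtain ⟨φ, hφ⟩ := h1
  have h2 : f.mapRange φ (map_zero φ) = 0 := by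
    apply h
    · intro m' hm'
      apply hfS
      exact Finsupp.support_mapRange hm'
    · intro i k j hkj
      have h3 := hfL i k j hkj
      rw [co_ev] at h3
      have h4 := congrArg φ h3
      rw [map_zero, map_sum] at h4
      rw [co_ev, ← h4]
      have h5 : (f.mapRange φ (map_zero φ)).support ⊆ f.support := Finsupp.support_mapRange
      refine (sum_subset h5 fun m _ hm => ?_).trans (sum_congr rfl fun m _ => ?_)
      · rw [Finsupp.notMem_support_iff.1 hm, zero_mul]
      · rw [mapU_mono, co_mapL, mul_comm (f m), ← Algebra.smul_def, map_smul, smul_eq_mul, mul_comm]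
        rfl
  apply hφ
  have := DFunLike.congr_fun h2 m
  simpa using this

/-- the emptiness may be moved to an algebraically closed field -/
theorem EmpV.algClosed (h : EmpV τ B S) : ∃ (K : Type) (_ : Field K) (_ : CharZero K)
    (_ : IsAlgClosed K) (X Y : ι → (Loc K)ˣ), EmpG τ B S X Y := by
  obtain ⟨K, _, _, X, Y, hf⟩ := h
  exact ⟨AlgebraicClosure K, inferInstance, inferInstance, inferInstance, _, _,
    EmpG.ext (K' := AlgebraicClosure K) hf⟩

/-- the emptiness for exponents in a sublattice -/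
theorem EmpV.sub (hτ : ∀ i, 0 ≤ τ i) (h : EmpV τ B S) (p q r s u v : ℤ)
    (hdet : 0 < p * s - q * r) :
    EmpV τ B {m | ∃ n ∈ S, m = (p * n.1 + q * n.2 + u, r * n.1 + s * n.2 + v)} := by
  classical
  obtain ⟨K, _, _, _, X, Y, hf⟩ := h.algClosed
  obtain ⟨D, hD⟩ : ∃ D : ℕ, (D : ℤ) = p * s - q * r := ⟨(p * s - q * r).toNat, by omega⟩
  have hD0 : 0 < D := by omega
  have hr : ∀ z : (Loc K)ˣ, ∃ z' : (Loc K)ˣ, z' ^ D = z := fun z => exists_root_unit z hD0
  choose rt hrt using hr
  let x : ι → (Loc K)ˣ := fun i => rt (X i) ^ s * rt (Y i) ^ (-r)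
  let y : ι → (Loc K)ˣ := fun i => rt (X i) ^ (-q) * rt (Y i) ^ p
  have e1 : ∀ i, x i ^ p * y i ^ r = X i := by
    intro i
    simp only [x, y]
    rw [mul_zpow, mul_zpow, ← zpow_mul, ← zpow_mul, ← zpow_mul, ← zpow_mul, mul_mul_mul_comm,
      ← zpow_add, ← zpow_add]
    rw [show s * p + -q * r = D by rw [hD]; ring, show -r * p + p * r = 0 by ring, zpow_zero,
      mul_one, zpow_natCast, hrt]
  have e2 : ∀ i, x i ^ q * y i ^ s = Y i := by
    intro i
    simp only [x, y]
    rw [mul_zpow, mul_zpow, ← zpow_mul, ← zpow_mul, ← zpow_mul, ← zpow_mul, mul_mul_mul_comm,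
      ← zpow_add, ← zpow_add]
    rw [show s * q + -q * s = 0 by ring, show -r * q + p * s = D by rw [hD]; ring, zpow_zero,
      one_mul, zpow_natCast, hrt]
  clear_value x y
  refine ⟨K, inferInstance, inferInstance, x, y, ?_⟩
  intro f hfS hfL
  -- the inverse relabelling
  have hch : ∀ m ∈ f.support, ∃ n ∈ S, m = (p * n.1 + q * n.2 + u, r * n.1 + s * n.2 + v) :=
    fun m hm => hfS hm
  let φ : ℤ × ℤ → ℤ × ℤ := fun m => if hm : m ∈ f.support then (hch m hm).choose else 0
  have hφ : ∀ m ∈ f.support, φ m ∈ S ∧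
      m = (p * (φ m).1 + q * (φ m).2 + u, r * (φ m).1 + s * (φ m).2 + v) := by
    intro m hm
    have := (hch m hm).choose_spec
    simp only [φ, dif_pos hm]
    exact this
  have hinj : Set.InjOn φ f.support := by
    intro m hm m' hm' he
    rw [(hφ m hm).2, (hφ m' hm').2, he]
  have h0 : (f.mapDomain φ).mapDomain
      (fun n : ℤ × ℤ => (p * n.1 + q * n.2 + u, r * n.1 + s * n.2 + v)) = f := by
    rw [← Finsupp.mapDomain_comp]
    conv_rhs => rw [← Finsupp.mapDomain_id (v := f)]
    exact Finsupp.mapDomain_congr fun m hm => (hφ m hm).2.symm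
  have h1 : f.mapDomain φ = 0 := by
    apply hf
    · intro m hm
      have := Finsupp.mapDomain_support hm
      simp only [Finset.mem_image] at this
      obtain ⟨m', hm', rfl⟩ := this
      exact (hφ m' hm').1
    · intro i
      have h2 := hfL i
      rw [← h0, ev_mapDomain, e1, e2] at h2
      exact VGe.of_mul_unit (hτ i) h2
  rw [← h0, h1, Finsupp.mapDomain_zero]

end

end Pool.Agent.TH116.Val
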