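import Pool.Agent.TH116.Val.Generic
import Pool.Agent.TH116.Val.Final
import Pool.Agent.TH183.QT.Transfer

/-! From emptiness for one germ to the values of forms at general germs. -/

namespace Pool.Agent.TH116.Val

open Finset Pool.Agent.TH176.Nag Pool.Agent.TH181.Nag Pool.Agent.TH183.QT

/-- the exponents of the polynomials of degree at most `d` -/
def tri (d : ℕ) : Set (ℤ × ℤ) := {m | 0 ≤ m.1 ∧ 0 ≤ m.2 ∧ m.1 + m.2 ≤ d}

theorem tri_finite (d : ℕ) : (tri d).Finite := by
  refine (Set.finite_Icc ((0, 0) : ℤ × ℤ) ((d : ℤ), (d : ℤ))).subset ?_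
  rintro ⟨a, b⟩ ⟨h1, h2, h3⟩
  simp only at h1 h2 h3
  exact ⟨⟨h1, h2⟩, ⟨by simp only; omega, by simp only; omega⟩⟩

/-- the values are discrete -/
theorem exists_gap {t : ℝ} (ht : 0 < t) (B' : ℝ) : ∃ B : ℝ, B' < B ∧
    ∀ i j : ℕ, B' < (i : ℝ) + t * j → B ≤ (i : ℝ) + t * j := by
  classical
  obtain ⟨T, hT⟩ := exists_finset ht (B' + 1)
  by_cases hne : (T.filter (fun p => B' < (p.1 : ℝ) + t * p.2)).Nonempty
  · obtain ⟨p, hp, hmin⟩ := Finset.exists_min_image _ (fun p : ℕ × ℕ => (p.1 : ℝ) + t * p.2) hne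
    rw [mem_filter] at hp
    refine ⟨(p.1 : ℝ) + t * p.2, hp.2, fun i j h => ?_⟩
    by_cases h1 : (i : ℝ) + t * j ≤ B' + 1
    · exact hmin (i, j) (mem_filter.2 ⟨(hT i j).2 h1, h⟩)
    · have := (hT p.1 p.2).1 hp.1
      linarith
  · refine ⟨B' + 1, by linarith, fun i j h => ?_⟩
    by_contra h1
    apply hne
    exact ⟨(i, j), mem_filter.2 ⟨(hT i j).2 (by linarith), h⟩⟩

/-- the coefficients of the germ as a graph -/
theorem exists_xi {u w : PowerSeries ℂ} (hu : PowerSeries.constantCoeff u = 0)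
    (hu1 : PowerSeries.coeff 1 u ≠ 0) (hw : PowerSeries.constantCoeff w = 0) (N : ℕ) :
    ∃ c : ℕ → ℂ, (∀ k, N ≤ k → c k = 0) ∧
      (PowerSeries.X : PowerSeries ℂ) ^ (N + 1) ∣ w - ∑ k ∈ range N, c k • u ^ (k + 1) := by
  classical
  induction N with
  | zero =>
    refine ⟨fun _ => 0, fun _ _ => rfl, ?_⟩
    rw [range_zero, sum_empty, sub_zero, zero_add, pow_one, PowerSeries.X_dvd_iff]
    exact hw
  | succ N ih =>
    obtain ⟨c, hc, r, hr⟩ := ih
    obtain ⟨v, hv⟩ := PowerSeries.X_dvd_iff.2 hu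
    have hv0 : PowerSeries.constantCoeff v ≠ 0 := by
      intro h
      apply hu1
      rw [hv, ← zero_add 1, PowerSeries.coeff_succ_X_mul]
      simpa using h
    refine ⟨Function.update c N (PowerSeries.constantCoeff r / PowerSeries.constantCoeff v ^ (N + 1)),
      fun k hk => ?_, ?_⟩
    · rw [Function.update_of_ne (by omega)]
      exact hc k (by omega)
    · rw [sum_range_succ, Function.update_self]
      have h1 : ∑ k ∈ range N, Function.update c N
          (PowerSeries.constantCoeff r / PowerSeries.constantCoeff v ^ (N + 1)) k • u ^ (k + 1) =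
          ∑ k ∈ range N, c k • u ^ (k + 1) := by
        refine sum_congr rfl fun k hk => ?_
        rw [mem_range] at hk
        rw [Function.update_of_ne (by omega)]
      rw [h1, ← sub_sub, hr, hv, mul_pow, ← mul_smul_comm, ← mul_sub, pow_succ]
      refine mul_dvd_mul_left _ ?_
      rw [PowerSeries.X_dvd_iff, map_sub]
      have h2 : ∀ (a : ℂ) (G : PowerSeries ℂ), PowerSeries.constantCoeff (a • G) =
          a * PowerSeries.constantCoeff G := by
        intro a G
        rw [PowerSeries.smul_eq_C_mul, map_mul, PowerSeries.constantCoeff_C]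
      rw [h2, map_pow, div_mul_cancel₀ _ (pow_ne_zero _ hv0), sub_self]

theorem evP_add {K A : Type*} [Field K] [CommRing A] [Algebra K A] (X Y : A)
    (f g : (ℤ × ℤ) →₀ K) : evP X Y (f + g) = evP X Y f + evP X Y g := by
  unfold evP
  rw [Finsupp.sum_add_index' (by intro m; exact zero_smul K _) (by intro m a b; exact add_smul a b _)]

theorem evP_zero {K A : Type*} [Field K] [CommRing A] [Algebra K A] (X Y : A) :
    evP X Y (0 : (ℤ × ℤ) →₀ K) = 0 := by
  unfold evP
  rw [Finsupp.sum_zero_index]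

theorem evP_sum {K A : Type*} [Field K] [CommRing A] [Algebra K A] (X Y : A) {κ : Type*}
    (s : Finset κ) (f : κ → (ℤ × ℤ) →₀ K) : evP X Y (∑ i ∈ s, f i) = ∑ i ∈ s, evP X Y (f i) := by
  classical
  induction s using Finset.induction_on with
  | empty => simp [evP_zero]
  | insert a s ha ih => rw [sum_insert ha, sum_insert ha, evP_add, ih]

theorem evP_single {K A : Type*} [Field K] [CommRing A] [Algebra K A] (X Y : A) (m : ℤ × ℤ) (a : K) :
    evP X Y (Finsupp.single m a) = a • (X ^ m.1.toNat * Y ^ m.2.toNat) := by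
  unfold evP
  rw [Finsupp.sum_single_index (by exact zero_smul K _)]

/-- the coefficients of a polynomial in two variables -/
noncomputable def toF (h : MvPolynomial (Fin 2) ℂ) : (ℤ × ℤ) →₀ ℂ :=
  ∑ m ∈ h.support, Finsupp.single ((m 0 : ℤ), (m 1 : ℤ)) (h.coeff m)

theorem toF_apply (h : MvPolynomial (Fin 2) ℂ) (m : Fin 2 →₀ ℕ) :
    toF h ((m 0 : ℤ), (m 1 : ℤ)) = h.coeff m := by
  classical
  unfold toF
  rw [Finsupp.finsetSum_apply, Finset.sum_eq_single m]
  · rw [Finsupp.single_eq_same]
  · intro m' _ hne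
    rw [Finsupp.single_apply, if_neg]
    intro h1
    apply hne
    rw [Prod.mk.injEq] at h1
    ext i
    fin_cases i
    · exact_mod_cast h1.1
    · exact_mod_cast h1.2
  · intro h1
    rw [Finsupp.single_eq_same]
    exact MvPolynomial.notMem_support_iff.1 h1

theorem toF_support {h : MvPolynomial (Fin 2) ℂ} {d : ℕ} (hd : h.totalDegree ≤ d) :
    (↑(toF h).support : Set (ℤ × ℤ)) ⊆ tri d := by
  classical
  intro m hm
  have h1 := Finsupp.support_finsetSum (Finset.mem_coe.1 hm)
  rw [Finset.mem_biUnion] at h1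
  obtain ⟨m', hm', h2⟩ := h1
  have h3 := Finsupp.support_single_subset h2
  rw [mem_singleton] at h3
  subst h3
  have h4 := MvPolynomial.le_totalDegree hm'
  rw [Finsupp.sum_fintype _ _ (by simp), Fin.sum_univ_two] at h4
  refine ⟨by simp, by simp, ?_⟩
  simp only
  omega

theorem evP_toF {A : Type*} [CommRing A] [Algebra ℂ A] (X Y : A) (h : MvPolynomial (Fin 2) ℂ) :
    evP X Y (toF h) = MvPolynomial.aeval ![X, Y] h := by
  unfold toF
  rw [evP_sum]
  conv_rhs => rw [h.as_sum, map_sum]
  refine sum_congr rfl fun m _ => ?_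
  rw [evP_single, MvPolynomial.aeval_monomial, Finsupp.prod_fintype _ _ (by simp), Fin.prod_univ_two,
    ← Algebra.smul_def]
  simp

/-- the translated and dehomogenized form -/
noncomputable def dehT (x0 y0 : ℂ) (F : MvPolynomial (Fin 3) ℂ) : MvPolynomial (Fin 2) ℂ :=
  MvPolynomial.aeval (![MvPolynomial.X 0 - MvPolynomial.C x0, MvPolynomial.X 1 - MvPolynomial.C y0, 1] :
    Fin 3 → MvPolynomial (Fin 2) ℂ) F

theorem dehT_degree (x0 y0 : ℂ) {F : MvPolynomial (Fin 3) ℂ} {d : ℕ} (hF : F.IsHomogeneous d) :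
    (dehT x0 y0 F).totalDegree ≤ d := by
  unfold dehT
  rw [F.as_sum, map_sum]
  refine MvPolynomial.totalDegree_finsetSum_le fun m hm => ?_
  have hm1 : m.degree = d := by
    by_contra h
    exact (MvPolynomial.mem_support_iff.1 hm) (hF.coeff_eq_zero h)
  rw [Finsupp.degree_eq_sum, Fin.sum_univ_three] at hm1
  rw [MvPolynomial.aeval_monomial, Finsupp.prod_fintype _ _ (by simp), Fin.prod_univ_three]
  simp only [Matrix.cons_val_zero, Matrix.cons_val_one, Matrix.cons_val_two, Matrix.head_cons,
    Matrix.tail_cons, one_pow, mul_one, MvPolynomial.algebraMap_eq]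
  have h1 : ∀ (i : Fin 2) (a : ℂ), (MvPolynomial.X i - MvPolynomial.C a : MvPolynomial (Fin 2) ℂ).totalDegree ≤ 1 := by
    intro i a
    refine (MvPolynomial.totalDegree_sub _ _).trans ?_
    rw [MvPolynomial.totalDegree_X, MvPolynomial.totalDegree_C]
    simp
  refine (MvPolynomial.totalDegree_mul _ _).trans ?_
  rw [MvPolynomial.totalDegree_C, zero_add]
  refine (MvPolynomial.totalDegree_mul _ _).trans ?_
  have h2 := (MvPolynomial.totalDegree_pow (MvPolynomial.X 0 - MvPolynomial.C x0 : MvPolynomial (Fin 2) ℂ) (m 0)).trans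
    (Nat.mul_le_mul_left _ (h1 0 x0))
  have h3 := (MvPolynomial.totalDegree_pow (MvPolynomial.X 1 - MvPolynomial.C y0 : MvPolynomial (Fin 2) ℂ) (m 1)).trans
    (Nat.mul_le_mul_left _ (h1 1 y0))
  omega

theorem eq_zero_of_dehT {x0 y0 : ℂ} {F : MvPolynomial (Fin 3) ℂ} {d : ℕ} (hF : F.IsHomogeneous d)
    (h : dehT x0 y0 F = 0) : F = 0 := by
  classical
  have h1 : MvPolynomial.aeval (![MvPolynomial.X 0, MvPolynomial.X 1, 1] :
      Fin 3 → MvPolynomial (Fin 2) ℂ) F = 0 := by
    have h2 := congrArg (MvPolynomial.aeval (![MvPolynomial.X 0 + MvPolynomial.C x0,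
      MvPolynomial.X 1 + MvPolynomial.C y0] : Fin 2 → MvPolynomial (Fin 2) ℂ)) h
    rw [map_zero] at h2
    rw [← h2]
    unfold dehT
    rw [← AlgHom.comp_apply, MvPolynomial.comp_aeval]
    congr 2
    funext i
    fin_cases i <;> simp
  refine form_eq_zero hF fun m => ?_
  have hm : m.1.degree = d := mem_exps.1 m.2
  rw [Finsupp.degree_eq_sum, Fin.sum_univ_three] at hm
  have h3 := congrArg (MvPolynomial.coeff (Finsupp.single 0 (m.1 0) + Finsupp.single 1 (m.1 1))) h1
  rw [MvPolynomial.coeff_zero, F.as_sum, map_sum, MvPolynomial.coeff_sum] at h3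
  have h4 : ∀ m' ∈ F.support, MvPolynomial.coeff (Finsupp.single 0 (m.1 0) + Finsupp.single 1 (m.1 1))
      (MvPolynomial.aeval (![MvPolynomial.X 0, MvPolynomial.X 1, 1] : Fin 3 → MvPolynomial (Fin 2) ℂ)
        (MvPolynomial.monomial m' (MvPolynomial.coeff m' F))) = if m' = m.1 then MvPolynomial.coeff m.1 F else 0 := by
    intro m' hm'
    have hm1 : m'.degree = d := by
      by_contra h
      exact (MvPolynomial.mem_support_iff.1 hm') (hF.coeff_eq_zero h)
    rw [Finsupp.degree_eq_sum, Fin.sum_univ_three] at hm1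
    rw [MvPolynomial.aeval_monomial, Finsupp.prod_fintype _ _ (by simp), Fin.prod_univ_three]
    simp only [Matrix.cons_val_zero, Matrix.cons_val_one, Matrix.cons_val_two, Matrix.head_cons,
      Matrix.tail_cons, one_pow, mul_one, MvPolynomial.algebraMap_eq]
    rw [MvPolynomial.X_pow_eq_monomial, MvPolynomial.X_pow_eq_monomial, MvPolynomial.monomial_mul,
      MvPolynomial.coeff_C_mul, MvPolynomial.coeff_monomial]
    by_cases he : m' = m.1
    · rw [if_pos he, he, if_pos rfl, mul_one, mul_one]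
    · rw [if_neg he, if_neg, mul_zero]
      intro h5
      apply he
      have e0 := DFunLike.congr_fun h5 0
      have e1 := DFunLike.congr_fun h5 1
      simp at e0 e1
      ext i
      fin_cases i
      · exact e0
      · exact e1
      · show m' 2 = m.1 2
        omega
  rw [sum_congr rfl h4, Finset.sum_ite_eq'] at h3
  by_cases hs : m.1 ∈ F.support
  · rwa [if_pos hs] at h3
  · exact MvPolynomial.notMem_support_iff.1 hs

/-- the expansion along a germ with polynomial equation -/
theorem expand_eq (c : ℕ → ℂ) (N : ℕ) (hc : ∀ k, N ≤ k → c k = 0) (F : MvPolynomial (Fin 3) ℂ) (i j : ℕ) :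
    PowerSeries.coeff i
      ((MvPolynomial.aeval
        (![Polynomial.C PowerSeries.X,
           Polynomial.C (PowerSeries.X * PowerSeries.mk c) + Polynomial.X,
           1] : Fin 3 → Polynomial (PowerSeries ℂ)) F).coeff j) =
    ((MvPolynomial.aeval
        (![Polynomial.C Polynomial.X,
           Polynomial.C (∑ k ∈ range N, c k • Polynomial.X ^ (k + 1)) + Polynomial.X,
           1] : Fin 3 → Polynomial (Polynomial ℂ)) F).coeff j).coeff i := by
  have h1 : (PowerSeries.X * PowerSeries.mk c : PowerSeries ℂ) =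
      ((∑ k ∈ range N, c k • Polynomial.X ^ (k + 1) : Polynomial ℂ) : PowerSeries ℂ) := by
    ext n
    rw [Polynomial.coeff_coe, Polynomial.finsetSum_coeff]
    simp only [Polynomial.coeff_smul, Polynomial.coeff_X_pow, smul_eq_mul, mul_ite, mul_one, mul_zero]
    rcases n with _ | n
    · rw [PowerSeries.coeff_zero_X_mul]
      exact (sum_eq_zero fun k _ => if_neg (by omega)).symm
    · rw [PowerSeries.coeff_succ_X_mul, PowerSeries.coeff_mk]
      simp only [add_left_inj]
      rw [Finset.sum_ite_eq]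
      split_ifs with h
      · rfl
      · exact hc n (by rw [mem_range] at h; omega)
  let φ : Polynomial ℂ →ₐ[ℂ] PowerSeries ℂ := Polynomial.coeToPowerSeries.algHom ℂ
  have hφ : ∀ q, φ q = (q : PowerSeries ℂ) := fun q => by
    show Polynomial.coeToPowerSeries.algHom ℂ q = _
    rw [Polynomial.coeToPowerSeries.algHom_apply]
    simp
  have h2 : MvPolynomial.aeval
        (![Polynomial.C PowerSeries.X,
           Polynomial.C (PowerSeries.X * PowerSeries.mk c) + Polynomial.X,
           1] : Fin 3 → Polynomial (PowerSeries ℂ)) F = Polynomial.mapAlgHom φ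
      (MvPolynomial.aeval
        (![Polynomial.C Polynomial.X,
           Polynomial.C (∑ k ∈ range N, c k • Polynomial.X ^ (k + 1)) + Polynomial.X,
           1] : Fin 3 → Polynomial (Polynomial ℂ)) F) := by
    rw [← AlgHom.comp_apply, MvPolynomial.comp_aeval]
    congr 2
    funext i
    fin_cases i
    · simp [hφ]
    · show Polynomial.C (PowerSeries.X * PowerSeries.mk c) + Polynomial.X =
        Polynomial.map (φ : Polynomial ℂ →+* PowerSeries ℂ)
          (Polynomial.C (∑ k ∈ range N, c k • Polynomial.X ^ (k + 1)) + Polynomial.X)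
      rw [Polynomial.map_add, Polynomial.map_C, Polynomial.map_X, h1, ← hφ]
      rfl
    · simp
  rw [h2]
  have h3 : ∀ q : Polynomial (Polynomial ℂ), (Polynomial.mapAlgHom φ q).coeff j = φ (q.coeff j) := by
    intro q
    show (Polynomial.map (φ : Polynomial ℂ →+* PowerSeries ℂ) q).coeff j = _
    rw [Polynomial.coeff_map]
    rfl
  rw [h3, hφ, Polynomial.coeff_coe]

/-- **From emptiness for one germ to general germs.** -/
theorem degLE_of_EmpV {d : ℕ} {t B' : ℝ} (ht : 1 ≤ t)
    (h : ∀ B : ℝ, B' < B → EmpV (fun _ : Unit => t) (fun _ => B) (tri d)) : DegLE d t B' := by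
  classical
  have ht0 : 0 < t := by linarith
  obtain ⟨B, hB, hgap⟩ := exists_gap ht0 B'
  obtain ⟨P, hP, hP'⟩ := exists_poly (tri_finite d) (fun m hm => ⟨hm.1, hm.2.1⟩) (h B hB)
  -- a point
  obtain ⟨Q, hQ⟩ : ∃ Q : MvPolynomial (Unit × Bool × ℕ × ℕ) ℤ,
    Q = P * MvPolynomial.X ((), false, 1, 0) := ⟨_, rfl⟩
  have hQ0 : Q ≠ 0 := by rw [hQ]; exact mul_ne_zero hP (MvPolynomial.X_ne_zero _)
  obtain ⟨c', hc'⟩ : ∃ c' : Unit × Bool × ℕ × ℕ → ℂ, MvPolynomial.aeval c' Q ≠ 0 := by
    by_contra hcon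
    push Not at hcon
    apply hQ0
    apply MvPolynomial.map_injective (Int.castRingHom ℂ) Int.cast_injective
    rw [map_zero]
    refine MvPolynomial.funext fun c => ?_
    rw [map_zero, MvPolynomial.eval_map, ← hcon c]
    rfl
  rw [hQ, map_mul, MvPolynomial.aeval_X] at hc'
  obtain ⟨hc1, hc2⟩ := mul_ne_zero_iff.1 hc'
  have hK := hP' ℂ c' hc1
  obtain ⟨X, hX⟩ : ∃ X : Loc ℂ, X = ser c' () false := ⟨_, rfl⟩
  obtain ⟨Y, hY⟩ : ∃ Y : Loc ℂ, Y = ser c' () true := ⟨_, rfl⟩
  obtain ⟨x0, hx0⟩ : ∃ x0, x0 = co 0 0 X := ⟨_, rfl⟩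
  obtain ⟨y0, hy0⟩ : ∃ y0, y0 = co 0 0 Y := ⟨_, rfl⟩
  obtain ⟨U, hU⟩ : ∃ U : Loc ℂ, U = X - algebraMap ℂ (Loc ℂ) x0 := ⟨_, rfl⟩
  have hco1 : ∀ k j : ℕ, ∀ a : ℂ, co k j (algebraMap ℂ (Loc ℂ) a) = if k = 0 ∧ j = 0 then a else 0 := by
    intro k j a
    rw [Algebra.algebraMap_eq_smul_one, map_smul, smul_eq_mul, co_apply, PowerSeries.coeff_one]
    split_ifs with h1 h2 h2
    · rw [PowerSeries.coeff_one, if_pos h2.1, mul_one]
    · rw [PowerSeries.coeff_one, if_neg (fun h3 => h2 ⟨h3, h1⟩), mul_zero]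
    · exact absurd h2.2 h1
    · rw [map_zero, mul_zero]
  have hU0 : co 0 0 U = 0 := by
    rw [hU, map_sub, hco1, if_pos ⟨rfl, rfl⟩, hx0, sub_self]
  have hU1 : co 1 0 U ≠ 0 := by
    rw [hU, map_sub, hco1, if_neg (by simp), sub_zero, hX, co_ser]
    exact hc2
  have hY0 : co 0 0 (Y - algebraMap ℂ (Loc ℂ) y0) = 0 := by
    rw [map_sub, hco1, if_pos ⟨rfl, rfl⟩, hy0, sub_self]
  obtain ⟨N, hN⟩ : ∃ N : ℕ, t ≤ N + 1 := by
    obtain ⟨N, hN⟩ := exists_nat_ge t
    exact ⟨N, by linarith⟩
  obtain ⟨c, hcN, hdvd⟩ := exists_xi (u := PowerSeries.constantCoeff U)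
    (w := PowerSeries.constantCoeff (Y - algebraMap ℂ (Loc ℂ) y0))
    (by rw [← co00]; exact hU0) (by
      have : co 1 0 U = PowerSeries.coeff 1 (PowerSeries.constantCoeff U) := by
        rw [co_apply, PowerSeries.coeff_zero_eq_constantCoeff_apply]
      rw [← this]; exact hU1) (by rw [← co00]; exact hY0) N
  obtain ⟨V, hV⟩ : ∃ V : Loc ℂ, V = Y - algebraMap ℂ (Loc ℂ) y0 - ∑ k ∈ range N, c k • U ^ (k + 1) := ⟨_, rfl⟩
  have hVU : VGe t 1 U := by
    intro k j hkj
    have hj : j = 0 := by
      rcases Nat.eq_zero_or_pos j with h1 | h1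
      · exact h1
      · exfalso
        have h2 : (1 : ℝ) ≤ j := by exact_mod_cast h1
        have h3 : (0 : ℝ) ≤ k := Nat.cast_nonneg k
        nlinarith
    subst hj
    have hk : k = 0 := by
      rcases Nat.eq_zero_or_pos k with h1 | h1
      · exact h1
      · exfalso
        have h2 : (1 : ℝ) ≤ k := by exact_mod_cast h1
        simp at hkj
        omega
    subst hk
    exact hU0
  have hVV : VGe t t V := by
    intro k j hkj
    have hj : j = 0 := by
      rcases Nat.eq_zero_or_pos j with h1 | h1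
      · exact h1
      · exfalso
        have h2 : (1 : ℝ) ≤ j := by exact_mod_cast h1
        have h3 : (0 : ℝ) ≤ k := Nat.cast_nonneg k
        nlinarith
    subst hj
    have hk : k < N + 1 := by
      have : (k : ℝ) < N + 1 := by
        simp at hkj
        linarith
      exact_mod_cast this
    have h1 : PowerSeries.constantCoeff V = PowerSeries.constantCoeff (Y - algebraMap ℂ (Loc ℂ) y0) -
        ∑ k ∈ range N, c k • (PowerSeries.constantCoeff U) ^ (k + 1) := by
      rw [hV, map_sub, map_sum]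
      congr 1
      refine sum_congr rfl fun k _ => ?_
      have h2 : ∀ (a : ℂ) (G : Loc ℂ), PowerSeries.constantCoeff (a • G) = a • PowerSeries.constantCoeff G :=
        fun _ _ => rfl
      rw [h2, map_pow]
    rw [co_apply, PowerSeries.coeff_zero_eq_constantCoeff_apply, h1]
    exact PowerSeries.X_pow_dvd_iff.1 hdvd k hk
  refine degLE_of_germ ht0 c fun F hF hF0 => ?_
  by_contra hcon
  apply hF0
  apply eq_zero_of_dehT (x0 := x0) (y0 := y0) hF
  have hf0 : toF (dehT x0 y0 F) = 0 := by
    apply hK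
    · exact toF_support (dehT_degree x0 y0 hF)
    · intro _
      show VGe t B (evP (ser c' () false) (ser c' () true) (toF (dehT x0 y0 F)))
      rw [← hX, ← hY, evP_toF]
      -- the expansion
      obtain ⟨E, hE⟩ : ∃ E : Polynomial (Polynomial ℂ), E = MvPolynomial.aeval
        (![Polynomial.C Polynomial.X,
           Polynomial.C (∑ k ∈ range N, c k • Polynomial.X ^ (k + 1)) + Polynomial.X,
           1] : Fin 3 → Polynomial (Polynomial ℂ)) F := ⟨_, rfl⟩
      have hE0 : ∀ i j : ℕ, (i : ℝ) + t * j < B → (E.coeff j).coeff i = 0 := by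
        intro i j hij
        by_contra hne
        apply hcon
        refine ⟨i, j, ?_, ?_⟩
        · rw [expand_eq c N hcN F i j, ← hE]
          exact hne
        · by_contra h1
          have := hgap i j (not_le.1 h1)
          linarith
      let Ψ : Polynomial (Polynomial ℂ) →+* Loc ℂ :=
        Polynomial.eval₂RingHom (Polynomial.aeval U : Polynomial ℂ →ₐ[ℂ] Loc ℂ).toRingHom V
      have hΨ : MvPolynomial.aeval ![X, Y] (dehT x0 y0 F) = Ψ E := by
        have h1 : ∀ q : MvPolynomial (Fin 3) ℂ, MvPolynomial.aeval ![X, Y] (dehT x0 y0 q) =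
            MvPolynomial.aeval ![U, Y - algebraMap ℂ (Loc ℂ) y0, 1] q := by
          intro q
          unfold dehT
          rw [← AlgHom.comp_apply, MvPolynomial.comp_aeval]
          congr 2
          funext i
          fin_cases i
          · simp [hU]
          · simp
          · simp
        rw [h1, hE]
        have h2 : ∀ q : MvPolynomial (Fin 3) ℂ, MvPolynomial.aeval ![U, Y - algebraMap ℂ (Loc ℂ) y0, 1] q =
            Ψ (MvPolynomial.aeval
        (![Polynomial.C Polynomial.X,
           Polynomial.C (∑ k ∈ range N, c k • Polynomial.X ^ (k + 1)) + Polynomial.X,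
           1] : Fin 3 → Polynomial (Polynomial ℂ)) q) := by
          intro q
          induction q using MvPolynomial.induction_on with
          | C a =>
            rw [MvPolynomial.aeval_C, MvPolynomial.aeval_C]
            have e : algebraMap ℂ (Polynomial (Polynomial ℂ)) a = Polynomial.C (Polynomial.C a) := rfl
            rw [e]
            simp [Ψ]
          | add p q hp hq => rw [map_add, map_add, map_add, hp, hq]
          | mul_X p i hp =>
            rw [map_mul, map_mul, map_mul, hp, MvPolynomial.aeval_X, MvPolynomial.aeval_X]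
            congr 1
            fin_cases i
            · simp [Ψ]
            · simp only [Fin.mk_one, Matrix.cons_val_one, Matrix.cons_val_zero, map_add]
              simp only [Ψ, Polynomial.coe_eval₂RingHom, Polynomial.eval₂_C, Polynomial.eval₂_X]
              rw [hV]
              simp
            · simp [Ψ]
        exact h2 F
      rw [hΨ]
      have h3 : Ψ E = ∑ j ∈ E.support, ∑ i ∈ (E.coeff j).support, (E.coeff j).coeff i • (U ^ i * V ^ j) := by
        show Polynomial.eval₂ _ V E = _
        rw [Polynomial.eval₂_eq_sum, Polynomial.sum_def]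
        refine sum_congr rfl fun j _ => ?_
        have h4 : (Polynomial.aeval U : Polynomial ℂ →ₐ[ℂ] Loc ℂ).toRingHom (E.coeff j) =
            ∑ i ∈ (E.coeff j).support, (E.coeff j).coeff i • U ^ i := by
          show Polynomial.aeval U (E.coeff j) = _
          rw [Polynomial.aeval_def, Polynomial.eval₂_eq_sum, Polynomial.sum_def]
          exact sum_congr rfl fun i _ => (Algebra.smul_def _ _).symm
        rw [h4, sum_mul]
        refine sum_congr rfl fun i _ => ?_
        rw [smul_mul_assoc]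
      rw [h3]
      refine VGe.sum fun j _ => VGe.sum fun i hi => ?_
      rcases lt_or_ge ((i : ℝ) + t * j) B with h4 | h4
      · exact absurd (hE0 i j h4) (Polynomial.mem_support_iff.1 hi)
      · refine VGe.smul _ (VGe.mono ((hVU.pow ht0.le i).mul (hVV.pow ht0.le j)) ?_)
        linarith
  ext m
  rw [← toF_apply, hf0]
  simp

end Pool.Agent.TH116.Val
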